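import Mathlib

/-!
# Hamilton paths and cycles as lists; the product lemma for boosters
-/

namespace Pool.Agent.H99.Dig

open Finset

variable {α : Type*}

/-- `l` is a directed walk from `x` to `y` for the relation `r`. -/
def Pth (r : α → α → Prop) (x y : α) (l : List α) : Prop :=
  l.IsChain r ∧ l.head? = some x ∧ l.getLast? = some y

theorem Pth.append {r : α → α → Prop} {x y z w : α} {l₁ l₂ : List α}
    (h₁ : Pth r x y l₁) (h₂ : Pth r z w l₂) (h : r y z) : Pth r x w (l₁ ++ l₂) := by
  obtain ⟨c₁, a₁, b₁⟩ := h₁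
  obtain ⟨c₂, a₂, b₂⟩ := h₂
  refine ⟨?_, ?_, ?_⟩
  · rw [List.isChain_append]
    refine ⟨c₁, c₂, ?_⟩
    intro u hu v hv
    rw [b₁] at hu
    rw [a₂] at hv
    simp only [Option.mem_def, Option.some.injEq] at hu hv
    subst hu; subst hv; exact h
  · rw [List.head?_append, a₁]; rfl
  · rw [List.getLast?_append, b₂]; rfl

theorem Pth.mono {r s : α → α → Prop} {x y : α} {l : List α} (h : Pth r x y l)
    (hrs : ∀ a b, r a b → s a b) : Pth s x y l :=
  ⟨h.1.imp (fun a b hab => hrs a b hab), h.2.1, h.2.2⟩

/-- Hamilton path of `r` on the vertex set `S`, from `x` to `y`. -/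
def HPath (S : Finset α) (r : α → α → Prop) (x y : α) (l : List α) : Prop :=
  l.Nodup ∧ (∀ v, v ∈ l ↔ v ∈ S) ∧ Pth r x y l

/-- `r` has a Hamilton cycle on the vertex set `S`. -/
def HC (S : Finset α) (r : α → α → Prop) : Prop :=
  ∃ (l : List α) (x y : α), HPath S r x y l ∧ r y x

/-- adding one edge -/
def addE (r : α → α → Prop) (e : α × α) : α → α → Prop :=
  fun a b => r a b ∨ (a = e.1 ∧ b = e.2)

theorem HC.mono {S : Finset α} {r s : α → α → Prop} (h : HC S r)
    (hrs : ∀ a b, r a b → s a b) : HC S s := by
  obtain ⟨l, x, y, ⟨h1, h2, h3⟩, h4⟩ := h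
  exact ⟨l, x, y, ⟨h1, h2, h3.mono hrs⟩, hrs _ _ h4⟩

open Classical in
/-- the set of boosters: pairs whose addition creates a Hamilton cycle -/
noncomputable def boost (S : Finset α) (r : α → α → Prop) : Finset (α × α) :=
  (S ×ˢ S).filter (fun e => e.1 ≠ e.2 ∧ HC S (addE r e))

theorem mem_boost {S : Finset α} {r : α → α → Prop} {e : α × α} :
    e ∈ boost S r ↔ e.1 ∈ S ∧ e.2 ∈ S ∧ e.1 ≠ e.2 ∧ HC S (addE r e) := by
  classical
  unfold boost
  simp only [Finset.mem_filter, Finset.mem_product, and_assoc]

theorem HPath.of_perm {S : Finset α} {r : α → α → Prop} {x y x' y' : α} {l l' : List α}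
    (h : HPath S r x y l) (hp : l'.Perm l) (h' : Pth r x' y' l') : HPath S r x' y' l' := by
  obtain ⟨h1, h2, h3⟩ := h
  refine ⟨hp.nodup_iff.mpr h1, ?_, h'⟩
  intro v
  rw [hp.mem_iff, h2]

theorem Pth.seg {r : α → α → Prop} {l : List α} (hc : l.IsChain r) {i j : ℕ}
    (hij : i < j) (hj : j ≤ l.length) :
    Pth r (l[i]'(by omega)) (l[j-1]'(by omega)) ((l.drop i).take (j - i)) := by
  refine ⟨(hc.drop i).take _, ?_, ?_⟩
  · rw [List.head?_take]
    have : j - i ≠ 0 := by omega
    simp only [this, if_false]
    rw [List.head?_drop]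
    rw [List.getElem?_eq_getElem]
  · rw [List.getLast?_eq_getElem?]
    have hlen : ((l.drop i).take (j - i)).length = j - i := by
      simp only [List.length_take, List.length_drop]; omega
    rw [hlen, List.getElem?_take_of_lt (by omega), List.getElem?_drop]
    have : i + (j - i - 1) = j - 1 := by omega
    rw [this, List.getElem?_eq_getElem]

/-- The basic three-segment exchange. -/
theorem HC_of_exchange {S : Finset α} {r : α → α → Prop} {x y : α} {l : List α}
    (h : HPath S r x y l) {i j : ℕ} (hij : i < j) (hj : j + 1 < l.length)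
    (h1 : r y (l[i+1]'(by omega))) (h2 : r (l[j]'(by omega)) x) :
    HC S (addE r (l[i]'(by omega), l[j+1]'(by omega))) := by
  obtain ⟨hnd, hm, hP⟩ := h
  set r' := addE r (l[i]'(by omega), l[j+1]'(by omega)) with hr'
  have hrr : ∀ a b, r a b → r' a b := fun a b hab => Or.inl hab
  have hc' : l.IsChain r' := (hP.mono hrr).1
  have hx : l[0]'(by omega) = x := by
    have := hP.2.1
    rw [List.head?_eq_getElem?, List.getElem?_eq_getElem (by omega)] at this
    simpa using this
  have hy : l[l.length - 1]'(by omega) = y := by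
    have := hP.2.2
    rw [List.getLast?_eq_getElem?, List.getElem?_eq_getElem (by omega)] at this
    simpa using this
  have s1 := Pth.seg hc' (i := 0) (j := i+1) (by omega) (by omega)
  have s2 := Pth.seg hc' (i := i+1) (j := j+1) (by omega) (by omega)
  have s3 := Pth.seg hc' (i := j+1) (j := l.length) (by omega) (by omega)
  simp only [Nat.add_sub_cancel] at s1 s2
  have e13 : r' (l[i]'(by omega)) (l[j+1]'(by omega)) := Or.inr ⟨rfl, rfl⟩
  have e32 : r' (l[l.length-1]'(by omega)) (l[i+1]'(by omega)) := by
    rw [hy]; exact Or.inl h1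
  have e21 : r' (l[j]'(by omega)) (l[0]'(by omega)) := by
    rw [hx]; exact Or.inl h2
  have P := (s1.append s3 e13).append s2 e32
  refine ⟨_, _, _, HPath.of_perm ⟨hnd, hm, hP.mono hrr⟩ ?_ P, e21⟩
  have hsplit : l = (l.drop 0).take (i+1-0) ++ ((l.drop (i+1)).take (j+1-(i+1)) ++
      (l.drop (j+1)).take (l.length-(j+1))) := by
    have e1 : (l.drop (j+1)).take (l.length-(j+1)) = l.drop (j+1) := by
      apply List.take_of_length_le
      simp
    have e2 : l.drop (j+1) = (l.drop (i+1)).drop (j+1-(i+1)) := by
      rw [List.drop_drop]; congr 1; omega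
    rw [e1, e2, List.take_append_drop]
    simp
  conv_rhs => rw [hsplit]
  rw [← Multiset.coe_eq_coe]
  simp only [← Multiset.coe_add]
  abel

theorem HPath.first {S : Finset α} {r : α → α → Prop} {x y : α} {l : List α}
    (h : HPath S r x y l) (hl : 0 < l.length) : l[0] = x := by
  have := h.2.2.2.1
  rw [List.head?_eq_getElem?, List.getElem?_eq_getElem (by omega)] at this
  simpa using this

theorem HPath.last {S : Finset α} {r : α → α → Prop} {x y : α} {l : List α}
    (h : HPath S r x y l) (hl : l.length - 1 < l.length) : l[l.length - 1] = y := by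
  have := h.2.2.2.2
  rw [List.getLast?_eq_getElem?, List.getElem?_eq_getElem (by omega)] at this
  simpa using this

theorem HPath.length_pos {S : Finset α} {r : α → α → Prop} {x y : α} {l : List α}
    (h : HPath S r x y l) : 0 < l.length := by
  rcases l with _ | ⟨a, t⟩
  · have := h.2.2.2.1; simp at this
  · simp

/-- Product lemma: for a Hamilton path `X ++ Y` of a non-Hamiltonian digraph, the number of
boosters is at least `|N⁺(last) ∩ X| * |N⁻(first) ∩ Y|`. -/
theorem product_lemma {S : Finset α} {r : α → α → Prop} {x y : α}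
    {X Y : List α} (h : HPath S r x y (X ++ Y)) (hn : ¬ HC S r)
    (U W : Finset α) (hU : ∀ u ∈ U, u ∈ X ∧ r y u) (hW : ∀ w ∈ W, w ∈ Y ∧ r w x) :
    U.card * W.card ≤ (boost S r).card := by
  classical
  have hlpos := h.length_pos
  have hfirst := h.first hlpos
  have hlast := h.last (by omega)
  have hxy : ¬ r y x := fun hh => hn ⟨_, _, _, h, hh⟩
  set l := X ++ Y with hl
  set n := l.length with hndef
  have hnd : l.Nodup := h.1
  -- index sets
  let I : Finset ℕ := (Finset.range n).filter (fun i => i + 1 < X.length ∧ ∃ hi : i + 1 < n, r y l[i+1])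
  let J : Finset ℕ := (Finset.range n).filter (fun j => X.length ≤ j ∧ j + 1 < n ∧ ∃ hj : j < n, r l[j] x)
  have hlen : n = X.length + Y.length := by rw [hndef, hl, List.length_append]
  have hIcard : U.card ≤ I.card := by
    have : U ⊆ I.image (fun i => l.getD (i+1) x) := by
      intro u hu
      obtain ⟨huX, hru⟩ := hU u hu
      obtain ⟨k, hk, hku⟩ := List.getElem_of_mem huX
      have hkn : k < n := by omega
      have hlk : l[k] = u := by
        rw [← hku]; exact List.getElem_append_left hk
      have hk0 : k ≠ 0 := by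
        intro hk0; subst hk0
        rw [hfirst] at hlk; subst hlk; exact hxy hru
      rw [Finset.mem_image]
      refine ⟨k - 1, ?_, ?_⟩
      · simp only [I, Finset.mem_filter, Finset.mem_range]
        refine ⟨by omega, by omega, ?_⟩
        have hk1 : k - 1 + 1 = k := by omega
        refine ⟨by omega, ?_⟩
        simp only [hk1, hlk]; exact hru
      · have hk1 : k - 1 + 1 = k := by omega
        simp only [hk1]
        rw [List.getD_eq_getElem _ _ hkn, hlk]
    exact (Finset.card_le_card this).trans Finset.card_image_le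
  have hJcard : W.card ≤ J.card := by
    have : W ⊆ J.image (fun i => l.getD i x) := by
      intro u hu
      obtain ⟨huX, hru⟩ := hW u hu
      obtain ⟨k, hk, hku⟩ := List.getElem_of_mem huX
      have hkn : X.length + k < n := by omega
      have hlk : l[X.length + k] = u := by
        rw [← hku]
        have := List.getElem_append_right (as := X) (bs := Y) (i := X.length + k) (by omega) (h₂ := by simpa [hl, hndef] using hkn)
        rw [this]; congr 1; omega
      have hk0 : X.length + k ≠ n - 1 := by
        intro hk0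
        have : l[X.length + k] = l[n-1] := by congr 1
        rw [this, hlast] at hlk; subst hlk; exact hxy hru
      rw [Finset.mem_image]
      refine ⟨X.length + k, ?_, ?_⟩
      · simp only [J, Finset.mem_filter, Finset.mem_range]
        refine ⟨by omega, by omega, by omega, hkn, ?_⟩
        rw [hlk]; exact hru
      · rw [List.getD_eq_getElem _ _ hkn, hlk]
    exact (Finset.card_le_card this).trans Finset.card_image_le
  have hprod : (I ×ˢ J).card ≤ (boost S r).card := by
    apply Finset.card_le_card_of_injOn (fun q => (l.getD q.1 x, l.getD (q.2 + 1) x))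
    · rintro ⟨i, j⟩ hq
      simp only [Finset.coe_product, Set.mem_prod, Finset.mem_coe, I, J, Finset.mem_filter,
        Finset.mem_range] at hq
      obtain ⟨⟨hi1, hi2, hi3, hi4⟩, ⟨hj1, hj2, hj3, hj4, hj5⟩⟩ := hq
      have hij : i < j := by omega
      have hHC := HC_of_exchange h hij (by omega) hi4 hj5
      rw [Finset.mem_coe, mem_boost]
      simp only []
      rw [List.getD_eq_getElem _ _ hi1, List.getD_eq_getElem _ _ hj3]
      refine ⟨?_, ?_, ?_, hHC⟩
      · rw [← h.2.1]; exact List.getElem_mem _
      · rw [← h.2.1]; exact List.getElem_mem _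
      · intro hEq
        have := (hnd.getElem_inj_iff).mp hEq
        omega
    · rintro ⟨i, j⟩ hq ⟨i', j'⟩ hq' hEq
      simp only [Finset.coe_product, Set.mem_prod, Finset.mem_coe, I, J, Finset.mem_filter,
        Finset.mem_range] at hq hq'
      obtain ⟨⟨hi1, hi2, hi3, hi4⟩, ⟨hj1, hj2, hj3, hj4, hj5⟩⟩ := hq
      obtain ⟨⟨hi1', hi2', hi3', hi4'⟩, ⟨hj1', hj2', hj3', hj4', hj5'⟩⟩ := hq'
      simp only [Prod.mk.injEq] at hEq
      rw [List.getD_eq_getElem _ _ hi1, List.getD_eq_getElem _ _ hj3,
        List.getD_eq_getElem _ _ hi1', List.getD_eq_getElem _ _ hj3'] at hEq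
      have e1 := (hnd.getElem_inj_iff).mp hEq.1
      have e2 := (hnd.getElem_inj_iff).mp hEq.2
      simp only [Prod.mk.injEq]
      omega
  calc U.card * W.card ≤ I.card * J.card := Nat.mul_le_mul hIcard hJcard
    _ = (I ×ˢ J).card := (Finset.card_product _ _).symm
    _ ≤ _ := hprod

end Pool.Agent.H99.Dig
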