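import Pool.Agent.H99.Dig.Transfer

/-!
# The booster lemma

Vertices are `0, …, n-1`; `0 → 1 → ⋯ → n-1` is a Hamilton path of the digraph `r`, which is not
Hamiltonian, and all out- and in-degrees are at least `n/2 - w`, with `n ≥ 400 w`, `w ≥ 1`.
Then at least `w ^ 2` pairs are boosters.
-/

namespace Pool.Agent.H99.Dig

open Finset

/-- standing assumptions -/
structure Setup (n w : ℕ) (r : ℕ → ℕ → Prop) : Prop where
  hw : 1 ≤ w
  hn : 400 * w ≤ n
  irr : ∀ i, ¬ r i i
  path : ∀ i, i + 1 < n → r i (i + 1)
  out : ∀ i, i < n → ∀ (T : Finset ℕ), (∀ j, j < n → r i j → j ∈ T) → n ≤ 2 * T.card + 2 * w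
  inn : ∀ i, i < n → ∀ (T : Finset ℕ), (∀ j, j < n → r j i → j ∈ T) → n ≤ 2 * T.card + 2 * w
  nh : ¬ HC (Finset.range n) r

variable {n w : ℕ} {r : ℕ → ℕ → Prop}

theorem Setup.seg (hs : Setup n w r) {a b : ℕ} (hab : a < b) (hb : b ≤ n) :
    Pth r a (b - 1) (List.Ico a b) := by
  have hlen : (List.Ico a b).length = b - a := List.Ico.length a b
  have hget : ∀ (i : ℕ) (hi : i < (List.Ico a b).length), (List.Ico a b)[i] = a + i := by
    intro i hi
    have h1 : i < (List.range' a (b - a) 1).length := by
      rw [List.length_range']; omega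
    have h2 := List.getElem_range' (n := a) (m := b - a) (step := 1) (i := i) h1
    calc (List.Ico a b)[i] = (List.range' a (b - a) 1)[i] := rfl
      _ = a + i := by rw [h2, one_mul]
  refine ⟨?_, ?_, ?_⟩
  · rw [List.isChain_iff_getElem]
    intro i hi
    rw [hget, hget]
    have := hs.path (a + i) (by omega)
    rwa [add_assoc] at this
  · rw [List.head?_eq_getElem?, List.getElem?_eq_getElem (by omega), hget]; simp
  · rw [List.getLast?_eq_getElem?, List.getElem?_eq_getElem (by omega), hget]
    congr 1; omega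

theorem Setup.base (hs : Setup n w r) : HPath (Finset.range n) r 0 (n - 1) (List.Ico 0 n) := by
  have h1 := hs.hw
  have h2 := hs.hn
  refine ⟨List.Ico.nodup 0 n, ?_, hs.seg (by omega) le_rfl⟩
  intro v; simp [List.Ico.mem]

/-- Product lemma in the form used below. -/
theorem Setup.prod (hs : Setup n w r) {x y : ℕ} {X Y : List ℕ}
    (h : HPath (Finset.range n) r x y (X ++ Y)) (U W : Finset ℕ)
    (hU : ∀ u ∈ U, u ∈ X ∧ r y u) (hW : ∀ v ∈ W, v ∈ Y ∧ r v x)
    (h1 : w ≤ U.card) (h2 : w ≤ W.card) : w * w ≤ (boost (Finset.range n) r).card :=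
  (Nat.mul_le_mul h1 h2).trans (product_lemma h hs.nh U W hU hW)

section halves

open Classical in
/-- the in-neighbours of `0` are mostly in the first half -/
theorem Setup.halfA (hs : Setup n w r) (hb : (boost (Finset.range n) r).card < w * w)
    {h : ℕ} (hh1 : 2 * h + 2 ≤ n) (hh2 : n ≤ 2 * h + 3) :
    ((Finset.Ico 0 h).filter (fun i => ¬ r i 0)).card ≤ 4 * w := by
  have hw := hs.hw
  have hn := hs.hn
  set s := h + (2 * w + 2) with hsdef
  set U := (Finset.Ico 0 s).filter (fun j => r (n-1) j) with hU
  set W := (Finset.Ico s n).filter (fun j => r j 0) with hW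
  have hbase := hs.base
  have hspl : List.Ico 0 s ++ List.Ico s n = List.Ico 0 n :=
    List.Ico.append_consecutive (by omega) (by omega)
  rw [← hspl] at hbase
  have key : U.card < w ∨ W.card < w := by
    by_contra hcon
    push Not at hcon
    have := hs.prod hbase U W
      (by
        intro u hu
        simp only [hU, Finset.mem_filter, Finset.mem_Ico] at hu
        exact ⟨List.Ico.mem.mpr hu.1, hu.2⟩)
      (by
        intro u hu
        simp only [hW, Finset.mem_filter, Finset.mem_Ico] at hu
        exact ⟨List.Ico.mem.mpr hu.1, hu.2⟩) hcon.1 hcon.2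
    omega
  have hWlt : W.card < w := by
    rcases key with hlt | hlt
    · exfalso
      have hout := hs.out (n-1) (by omega) (U ∪ Finset.Ico s n) (by
        intro j hj hrj
        simp only [hU, Finset.mem_union, Finset.mem_filter, Finset.mem_Ico]
        by_cases hjs : j < s
        · exact Or.inl ⟨⟨by omega, hjs⟩, hrj⟩
        · exact Or.inr ⟨by omega, hj⟩)
      have hc := Finset.card_union_le U (Finset.Ico s n)
      rw [Nat.card_Ico] at hc
      omega
    · exact hlt
  have hin := hs.inn 0 (by omega)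
    (((Finset.Ico 0 h).filter (fun i => r i 0)) ∪ (Finset.Ico h s ∪ W)) (by
      intro j hj hrj
      simp only [hW, Finset.mem_union, Finset.mem_filter, Finset.mem_Ico]
      by_cases hjh : j < h
      · exact Or.inl ⟨⟨by omega, hjh⟩, hrj⟩
      · by_cases hjs : j < s
        · exact Or.inr (Or.inl ⟨by omega, hjs⟩)
        · exact Or.inr (Or.inr ⟨⟨by omega, hj⟩, hrj⟩))
  have hc1 := Finset.card_union_le ((Finset.Ico 0 h).filter (fun i => r i 0)) (Finset.Ico h s ∪ W)
  have hc2 := Finset.card_union_le (Finset.Ico h s) W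
  rw [Nat.card_Ico] at hc2
  have hc3 := Finset.card_filter_add_card_filter_not (s := Finset.Ico 0 h) (fun i => r i 0)
  rw [Nat.card_Ico] at hc3
  omega

open Classical in
/-- the out-neighbours of `n-1` are mostly in the second half -/
theorem Setup.halfB (hs : Setup n w r) (hb : (boost (Finset.range n) r).card < w * w)
    {h : ℕ} (hh1 : 2 * h + 2 ≤ n) (hh2 : n ≤ 2 * h + 3) :
    ((Finset.Ico h n).filter (fun i => ¬ r (n-1) i)).card ≤ 4 * w := by
  have hw := hs.hw
  have hn := hs.hn
  set s := h - 2 * w with hsdef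
  set U := (Finset.Ico 0 s).filter (fun j => r (n-1) j) with hU
  set W := (Finset.Ico s n).filter (fun j => r j 0) with hW
  have hbase := hs.base
  have hspl : List.Ico 0 s ++ List.Ico s n = List.Ico 0 n :=
    List.Ico.append_consecutive (by omega) (by omega)
  rw [← hspl] at hbase
  have key : U.card < w ∨ W.card < w := by
    by_contra hcon
    push Not at hcon
    have := hs.prod hbase U W
      (by
        intro u hu
        simp only [hU, Finset.mem_filter, Finset.mem_Ico] at hu
        exact ⟨List.Ico.mem.mpr hu.1, hu.2⟩)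
      (by
        intro u hu
        simp only [hW, Finset.mem_filter, Finset.mem_Ico] at hu
        exact ⟨List.Ico.mem.mpr hu.1, hu.2⟩) hcon.1 hcon.2
    omega
  have hUlt : U.card < w := by
    rcases key with hlt | hlt
    · exact hlt
    · exfalso
      have hin := hs.inn 0 (by omega) (Finset.Ico 0 s ∪ W) (by
        intro j hj hrj
        simp only [hW, Finset.mem_union, Finset.mem_filter, Finset.mem_Ico]
        by_cases hjs : j < s
        · exact Or.inl ⟨by omega, hjs⟩
        · exact Or.inr ⟨⟨by omega, hj⟩, hrj⟩)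
      have hc := Finset.card_union_le (Finset.Ico 0 s) W
      rw [Nat.card_Ico] at hc
      omega
  have hout := hs.out (n-1) (by omega)
    (((Finset.Ico h n).filter (fun i => r (n-1) i)) ∪ (Finset.Ico s h ∪ U)) (by
      intro j hj hrj
      simp only [hU, Finset.mem_union, Finset.mem_filter, Finset.mem_Ico]
      by_cases hjh : h ≤ j
      · exact Or.inl ⟨⟨by omega, hj⟩, hrj⟩
      · by_cases hjs : j < s
        · exact Or.inr (Or.inr ⟨⟨by omega, hjs⟩, hrj⟩)
        · exact Or.inr (Or.inl ⟨by omega, by omega⟩))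
  have hc1 := Finset.card_union_le ((Finset.Ico h n).filter (fun i => r (n-1) i)) (Finset.Ico s h ∪ U)
  have hc2 := Finset.card_union_le (Finset.Ico s h) U
  rw [Nat.card_Ico] at hc2
  have hc3 := Finset.card_filter_add_card_filter_not (s := Finset.Ico h n) (fun i => r (n-1) i)
  rw [Nat.card_Ico] at hc3
  omega

end halves

theorem perm_beta (A B C D : List ℕ) : (C ++ (B ++ (A ++ D))).Perm (A ++ (B ++ (C ++ D))) := by
  rw [← Multiset.coe_eq_coe]
  simp only [← Multiset.coe_add]
  abel

theorem perm_alpha (A B C D E F : List ℕ) :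
    (E ++ (D ++ (C ++ (B ++ (A ++ F))))).Perm (A ++ (B ++ (C ++ (D ++ (E ++ F))))) := by
  rw [← Multiset.coe_eq_coe]
  simp only [← Multiset.coe_add]
  abel

theorem perm_kl (A B C D E : List ℕ) :
    (B ++ (A ++ (C ++ (E ++ D)))).Perm (A ++ (B ++ (C ++ (D ++ E)))) := by
  rw [← Multiset.coe_eq_coe]
  simp only [← Multiset.coe_add]
  abel

open Classical in
/-- The set of new starting points obtained by rotating inside the first half. -/
noncomputable def Kset (h : ℕ) (r : ℕ → ℕ → Prop) : Finset ℕ :=
  (Finset.range h).filter (fun k => ∃ i, k < i ∧ i < h ∧ r i 0 ∧ r k (i + 1))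

theorem mem_Kset {h : ℕ} {r : ℕ → ℕ → Prop} {k : ℕ} :
    k ∈ Kset h r ↔ k < h ∧ ∃ i, k < i ∧ i < h ∧ r i 0 ∧ r k (i + 1) := by
  classical
  simp only [Kset, Finset.mem_filter, Finset.mem_range]

open Classical in
theorem Setup.bad1 (hs : Setup n w r)
    {h : ℕ} (hh1 : 2 * h + 2 ≤ n) (hh2 : n ≤ 2 * h + 3)
    (hA : ((Finset.Ico 0 h).filter (fun i => ¬ r i 0)).card ≤ 4 * w)
    {k : ℕ} (hk : k < h) (hkK : k ∉ Kset h r) :
    ((Finset.Ico h (n-1)).filter (fun l => ¬ r k (l+1))).card ≤ 5 * w + k + 1 := by
  have hout := hs.out k (by omega)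
    (((Finset.range (k+2)).erase k) ∪
      ((((Finset.Ico 0 h).filter (fun i => ¬ r i 0)).image (· + 1)) ∪
       (((Finset.Ico h (n-1)).filter (fun l => r k (l+1))).image (· + 1)))) (by
      intro j hj hrj
      simp only [Finset.mem_union, Finset.mem_erase, Finset.mem_range, Finset.mem_image,
        Finset.mem_filter, Finset.mem_Ico]
      have hjk : j ≠ k := by rintro rfl; exact hs.irr _ hrj
      by_cases h1 : j < k + 2
      · exact Or.inl ⟨hjk, h1⟩
      · right
        have hj1 : j - 1 + 1 = j := by omega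
        by_cases h2 : j - 1 < h
        · left
          refine ⟨j - 1, ⟨⟨by omega, h2⟩, ?_⟩, hj1⟩
          intro hr0
          apply hkK
          simp only [Kset, Finset.mem_filter, Finset.mem_range]
          exact ⟨hk, j - 1, by omega, h2, hr0, by rw [hj1]; exact hrj⟩
        · right
          refine ⟨j - 1, ⟨⟨by omega, by omega⟩, ?_⟩, hj1⟩
          rw [hj1]; exact hrj)
  have hc1 := Finset.card_union_le ((Finset.range (k+2)).erase k)
      ((((Finset.Ico 0 h).filter (fun i => ¬ r i 0)).image (· + 1)) ∪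
       (((Finset.Ico h (n-1)).filter (fun l => r k (l+1))).image (· + 1)))
  have hc2 := Finset.card_union_le (((Finset.Ico 0 h).filter (fun i => ¬ r i 0)).image (· + 1))
       (((Finset.Ico h (n-1)).filter (fun l => r k (l+1))).image (· + 1))
  have hc3 := Finset.card_image_le (s := (Finset.Ico 0 h).filter (fun i => ¬ r i 0)) (f := (· + 1))
  have hc4 := Finset.card_image_le (s := (Finset.Ico h (n-1)).filter (fun l => r k (l+1))) (f := (· + 1))
  have hc5 : ((Finset.range (k+2)).erase k).card = k + 1 := by
    rw [Finset.card_erase_of_mem (by simp), Finset.card_range]; omega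
  have hc6 := Finset.card_filter_add_card_filter_not (s := Finset.Ico h (n-1)) (fun l => r k (l+1))
  rw [Nat.card_Ico] at hc6
  omega

open Classical in
theorem Setup.bad2 (hs : Setup n w r)
    {h : ℕ} (hh1 : 2 * h + 2 ≤ n) (hh2 : n ≤ 2 * h + 3)
    (hK : (Kset h r).card < w)
    {i : ℕ} (hi : i < h) (hi0 : r i 0) :
    ((Finset.Ico h (n-1)).filter (fun l => ¬ r l (i+1))).card ≤ 2 * w + (h - i) := by
  have hin := hs.inn (i+1) (by omega)
    ((Kset h r) ∪ ((Finset.Ico i h) ∪
      (((Finset.Ico h (n-1)).filter (fun l => r l (i+1))) ∪ {n-1}))) (by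
      intro j hj hrj
      simp only [Finset.mem_union, Finset.mem_filter, Finset.mem_Ico, Finset.mem_singleton]
      by_cases h1 : j < i
      · left
        simp only [Kset, Finset.mem_filter, Finset.mem_range]
        exact ⟨by omega, i, h1, hi, hi0, hrj⟩
      · right
        by_cases h2 : j < h
        · left; omega
        · right
          by_cases h3 : j = n - 1
          · right; exact h3
          · left; exact ⟨by omega, hrj⟩)
  have hc1 := Finset.card_union_le (Kset h r) ((Finset.Ico i h) ∪
      (((Finset.Ico h (n-1)).filter (fun l => r l (i+1))) ∪ {n-1}))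
  have hc2 := Finset.card_union_le (Finset.Ico i h)
      (((Finset.Ico h (n-1)).filter (fun l => r l (i+1))) ∪ {n-1})
  have hc3 := Finset.card_union_le ((Finset.Ico h (n-1)).filter (fun l => r l (i+1))) {n-1}
  rw [Finset.card_singleton] at hc3
  rw [Nat.card_Ico] at hc2
  have hc6 := Finset.card_filter_add_card_filter_not (s := Finset.Ico h (n-1)) (fun l => r l (i+1))
  rw [Nat.card_Ico] at hc6
  omega

/-- choosing an element of an interval outside a small bad set -/
theorem exists_mem_Ico_of_card {a b lo hi : ℕ} (P : ℕ → Prop) [DecidablePred P] {c : ℕ}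
    (hbad : ((Finset.Ico lo hi).filter (fun i => ¬ P i)).card ≤ c)
    (ha : lo ≤ a) (hb : b ≤ hi) (hc : c < b - a) : ∃ i, a ≤ i ∧ i < b ∧ P i := by
  by_contra hcon
  push Not at hcon
  have hsub : Finset.Ico a b ⊆ (Finset.Ico lo hi).filter (fun i => ¬ P i) := by
    intro i hi
    rw [Finset.mem_Ico] at hi
    rw [Finset.mem_filter, Finset.mem_Ico]
    exact ⟨⟨by omega, by omega⟩, hcon i hi.1 hi.2⟩
  have := Finset.card_le_card hsub
  rw [Nat.card_Ico] at this
  omega

theorem exists_mem_Ico_of_card₂ {a b lo hi : ℕ} (P Q : ℕ → Prop) [DecidablePred P]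
    [DecidablePred Q] {c d : ℕ}
    (hbad : ((Finset.Ico lo hi).filter (fun i => ¬ P i)).card ≤ c)
    (hbad' : ((Finset.Ico lo hi).filter (fun i => ¬ Q i)).card ≤ d)
    (ha : lo ≤ a) (hb : b ≤ hi) (hc : c + d < b - a) : ∃ i, a ≤ i ∧ i < b ∧ P i ∧ Q i := by
  have : ((Finset.Ico lo hi).filter (fun i => ¬ (P i ∧ Q i))).card ≤ c + d := by
    have hsub : (Finset.Ico lo hi).filter (fun i => ¬ (P i ∧ Q i)) ⊆
        (Finset.Ico lo hi).filter (fun i => ¬ P i) ∪ (Finset.Ico lo hi).filter (fun i => ¬ Q i) := by
      intro i hi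
      simp only [Finset.mem_union, Finset.mem_filter] at hi ⊢
      tauto
    have h1 := Finset.card_le_card hsub
    have h2 := Finset.card_union_le ((Finset.Ico lo hi).filter (fun i => ¬ P i))
      ((Finset.Ico lo hi).filter (fun i => ¬ Q i))
    omega
  exact exists_mem_Ico_of_card _ this ha hb hc

open Classical in
/-- sub-case `α` of the main argument -/
theorem Setup.alpha (hs : Setup n w r) (hb : (boost (Finset.range n) r).card < w * w)
    {h : ℕ} (hh1 : 2 * h + 2 ≤ n) (hh2 : n ≤ 2 * h + 3) (hK : (Kset h r).card < w)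
    {a b : ℕ} (ha : a < w) (haK : a ∉ Kset h r) (hb1 : h - 26 * w ≤ b) (hb2 : b < h)
    (hb0 : r b 0) (hba : r b (a + 1)) : False := by
  have hw := hs.hw
  have hn := hs.hn
  have hA := hs.halfA hb hh1 hh2
  have hB := hs.halfB hb hh1 hh2
  obtain ⟨i, hi1, hi2, hi0⟩ := exists_mem_Ico_of_card (a := h - 52 * w) (b := h - 26 * w)
    (fun i => r i 0) hA (by omega) (by omega) (by omega)
  have hbada := hs.bad1 hh1 hh2 hA (k := a) (by omega) haK
  have hbadb := hs.bad2 hh1 hh2 hK (i := b) hb2 hb0
  have hbadi := hs.bad2 hh1 hh2 hK (i := i) (by omega) hi0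
  obtain ⟨c, hc1, hc2, hac, hcb⟩ := exists_mem_Ico_of_card₂ (a := n - 1 - 110 * w)
    (b := n - 1 - 55 * w) (fun l => r a (l+1)) (fun l => r l (b+1)) hbada hbadb
    (by omega) (by omega) (by omega)
  obtain ⟨k, hk1, hk2, hki⟩ := exists_mem_Ico_of_card (a := h) (b := h + 55 * w)
    (fun l => r l (i+1)) hbadi (by omega) (by omega) (by omega)
  have hkc : k < c := by omega
  have hsegA := hs.seg (a := 0) (b := a + 1) (by omega) (by omega)
  have hsegB := hs.seg (a := a + 1) (b := i + 1) (by omega) (by omega)
  have hsegC := hs.seg (a := i + 1) (b := b + 1) (by omega) (by omega)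
  have hsegD := hs.seg (a := b + 1) (b := k + 1) (by omega) (by omega)
  have hsegE := hs.seg (a := k + 1) (b := c + 1) (by omega) (by omega)
  have hsegF := hs.seg (a := c + 1) (b := n) (by omega) (by omega)
  simp only [Nat.add_sub_cancel] at hsegA hsegB hsegC hsegD hsegE
  have P1 := hsegE.append (hsegD.append (hsegC.append (hsegB.append (hsegA.append hsegF hac)
    hi0) hba) hki) hcb
  have hbase := hs.base
  have hsplit : List.Ico 0 (a+1) ++ (List.Ico (a+1) (i+1) ++ (List.Ico (i+1) (b+1) ++
      (List.Ico (b+1) (k+1) ++ (List.Ico (k+1) (c+1) ++ List.Ico (c+1) n)))) = List.Ico 0 n := by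
    rw [List.Ico.append_consecutive (by omega) (by omega),
      List.Ico.append_consecutive (by omega) (by omega),
      List.Ico.append_consecutive (by omega) (by omega),
      List.Ico.append_consecutive (by omega) (by omega),
      List.Ico.append_consecutive (by omega) (by omega)]
  have hP : HPath (Finset.range n) r (k+1) (n-1)
      (List.Ico (k+1) (c+1) ++ (List.Ico (b+1) (k+1) ++ (List.Ico (i+1) (b+1) ++
      (List.Ico (a+1) (i+1) ++ (List.Ico 0 (a+1) ++ List.Ico (c+1) n))))) := by
    refine HPath.of_perm hbase ?_ P1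
    rw [← hsplit]
    exact perm_alpha _ _ _ _ _ _
  have hcount1 : w ≤ ((Finset.Ico (k+1) (c+1)).filter (fun j => r (n-1) j)).card := by
    have hc3 := Finset.card_filter_add_card_filter_not (s := Finset.Ico (k+1) (c+1))
      (fun l => r (n-1) l)
    rw [Nat.card_Ico] at hc3
    have hc4 : ((Finset.Ico (k+1) (c+1)).filter (fun j => ¬ r (n-1) j)).card ≤ 4 * w := by
      refine le_trans (Finset.card_le_card ?_) hB
      intro j hj
      simp only [Finset.mem_filter, Finset.mem_Ico] at hj ⊢
      exact ⟨⟨by omega, by omega⟩, hj.2⟩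
    omega
  have hcount2 : w ≤ ((Finset.range n).filter
      (fun j => r j (k+1) ∧ ¬ (k + 1 ≤ j ∧ j < c + 1))).card := by
    have hin := hs.inn (k+1) (by omega)
      (((Finset.range n).filter (fun j => r j (k+1) ∧ ¬ (k + 1 ≤ j ∧ j < c + 1))) ∪
        Finset.Ico (k+1) (c+1)) (by
        intro j hj hrj
        simp only [Finset.mem_union, Finset.mem_filter, Finset.mem_Ico, Finset.mem_range]
        by_cases h1 : k + 1 ≤ j ∧ j < c + 1
        · exact Or.inr h1
        · exact Or.inl ⟨hj, hrj, h1⟩)
    have hc1 := Finset.card_union_le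
      ((Finset.range n).filter (fun j => r j (k+1) ∧ ¬ (k + 1 ≤ j ∧ j < c + 1)))
      (Finset.Ico (k+1) (c+1))
    rw [Nat.card_Ico] at hc1
    omega
  have := hs.prod hP _ _ (by
      intro u hu
      simp only [Finset.mem_filter, Finset.mem_Ico] at hu
      exact ⟨List.Ico.mem.mpr hu.1, hu.2⟩) (by
      intro u hu
      simp only [Finset.mem_filter, Finset.mem_range] at hu
      refine ⟨?_, hu.2.1⟩
      simp only [List.mem_append, List.Ico.mem]
      omega) hcount1 hcount2
  omega

open Classical in
/-- sub-case `β` of the main argument -/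
theorem Setup.beta (hs : Setup n w r) (hb : (boost (Finset.range n) r).card < w * w)
    {h : ℕ} (hh1 : 2 * h + 2 ≤ n) (hh2 : n ≤ 2 * h + 3)
    {a : ℕ} (ha : a < w) (haK : a ∉ Kset h r)
    (hno : ∀ b, h - 26 * w ≤ b → b < h → r b 0 → ¬ r b (a + 1)) : False := by
  have hw := hs.hw
  have hn := hs.hn
  have hA := hs.halfA hb hh1 hh2
  have hB := hs.halfB hb hh1 hh2
  have hbada := hs.bad1 hh1 hh2 hA (k := a) (by omega) haK
  -- many `l` with `l → a+1`
  have hgood : ((Finset.Ico h (n-1)).filter (fun l => ¬ r l (a+1))).card + (26 * w - 5 * w) ≤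
      (n - 1 - h) := by
    have hin := hs.inn (a+1) (by omega)
      ((Finset.Ico 0 (h - 26 * w)) ∪ (((Finset.Ico 0 h).filter (fun i => ¬ r i 0)) ∪
        (((Finset.Ico h (n-1)).filter (fun l => r l (a+1))) ∪ {n-1}))) (by
        intro j hj hrj
        simp only [Finset.mem_union, Finset.mem_filter, Finset.mem_Ico, Finset.mem_singleton]
        by_cases h1 : j < h - 26 * w
        · left; omega
        · right
          by_cases h2 : j < h
          · left
            exact ⟨by omega, fun h0 => hno j (by omega) h2 h0 hrj⟩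
          · right
            by_cases h3 : j = n - 1
            · right; exact h3
            · left; exact ⟨by omega, hrj⟩)
    have hc1 := Finset.card_union_le (Finset.Ico 0 (h - 26 * w))
      (((Finset.Ico 0 h).filter (fun i => ¬ r i 0)) ∪
        (((Finset.Ico h (n-1)).filter (fun l => r l (a+1))) ∪ {n-1}))
    have hc2 := Finset.card_union_le ((Finset.Ico 0 h).filter (fun i => ¬ r i 0))
        (((Finset.Ico h (n-1)).filter (fun l => r l (a+1))) ∪ {n-1})
    have hc3 := Finset.card_union_le ((Finset.Ico h (n-1)).filter (fun l => r l (a+1))) {n-1}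
    rw [Finset.card_singleton] at hc3
    rw [Nat.card_Ico] at hc1
    have hc6 := Finset.card_filter_add_card_filter_not (s := Finset.Ico h (n-1))
      (fun l => r l (a+1))
    rw [Nat.card_Ico] at hc6
    omega
  obtain ⟨l, hl1, hl2, hla, hal⟩ := exists_mem_Ico_of_card₂ (a := h + 7 * w)
    (b := n - 1 - 7 * w) (fun l => r l (a+1)) (fun l => r a (l+1)) (le_refl _) hbada
    (by omega) (by omega) (by omega)
  obtain ⟨i, hi1, hi2, hi0⟩ := exists_mem_Ico_of_card (a := h - (4 * w + 1)) (b := h)
    (fun i => r i 0) hA (by omega) (by omega) (by omega)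
  have hsegA := hs.seg (a := 0) (b := a + 1) (by omega) (by omega)
  have hsegB := hs.seg (a := a + 1) (b := i + 1) (by omega) (by omega)
  have hsegC := hs.seg (a := i + 1) (b := l + 1) (by omega) (by omega)
  have hsegD := hs.seg (a := l + 1) (b := n) (by omega) (by omega)
  simp only [Nat.add_sub_cancel] at hsegA hsegB hsegC
  have P1 := hsegC.append (hsegB.append (hsegA.append hsegD hal) hi0) hla
  have hbase := hs.base
  have hsplit : List.Ico 0 (a+1) ++ (List.Ico (a+1) (i+1) ++ (List.Ico (i+1) (l+1) ++
      List.Ico (l+1) n)) = List.Ico 0 n := by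
    rw [List.Ico.append_consecutive (by omega) (by omega),
      List.Ico.append_consecutive (by omega) (by omega),
      List.Ico.append_consecutive (by omega) (by omega)]
  have hP : HPath (Finset.range n) r (i+1) (n-1)
      (List.Ico (i+1) (l+1) ++ (List.Ico (a+1) (i+1) ++ (List.Ico 0 (a+1) ++
      List.Ico (l+1) n))) := by
    refine HPath.of_perm hbase ?_ P1
    rw [← hsplit]
    exact perm_beta _ _ _ _
  have hcount1 : w ≤ ((Finset.Ico h (l+1)).filter (fun j => r (n-1) j)).card := by
    have hc3 := Finset.card_filter_add_card_filter_not (s := Finset.Ico h (l+1))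
      (fun l => r (n-1) l)
    rw [Nat.card_Ico] at hc3
    have hc4 : ((Finset.Ico h (l+1)).filter (fun j => ¬ r (n-1) j)).card ≤ 4 * w := by
      refine le_trans (Finset.card_le_card ?_) hB
      intro j hj
      simp only [Finset.mem_filter, Finset.mem_Ico] at hj ⊢
      exact ⟨⟨by omega, by omega⟩, hj.2⟩
    omega
  have hcount2 : w ≤ ((Finset.range n).filter
      (fun j => r j (i+1) ∧ ¬ (i + 1 ≤ j ∧ j < l + 1))).card := by
    have hin := hs.inn (i+1) (by omega)
      (((Finset.range n).filter (fun j => r j (i+1) ∧ ¬ (i + 1 ≤ j ∧ j < l + 1))) ∪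
        Finset.Ico (i+1) (l+1)) (by
        intro j hj hrj
        simp only [Finset.mem_union, Finset.mem_filter, Finset.mem_Ico, Finset.mem_range]
        by_cases h1 : i + 1 ≤ j ∧ j < l + 1
        · exact Or.inr h1
        · exact Or.inl ⟨hj, hrj, h1⟩)
    have hc1 := Finset.card_union_le
      ((Finset.range n).filter (fun j => r j (i+1) ∧ ¬ (i + 1 ≤ j ∧ j < l + 1)))
      (Finset.Ico (i+1) (l+1))
    rw [Nat.card_Ico] at hc1
    omega
  have := hs.prod hP _ _ (by
      intro u hu
      simp only [Finset.mem_filter, Finset.mem_Ico] at hu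
      exact ⟨List.Ico.mem.mpr ⟨by omega, by omega⟩, hu.2⟩) (by
      intro u hu
      simp only [Finset.mem_filter, Finset.mem_range] at hu
      refine ⟨?_, hu.2.1⟩
      simp only [List.mem_append, List.Ico.mem]
      omega) hcount1 hcount2
  omega

/-- If few pairs are boosters then there are many rotated starting points. -/
theorem Setup.card_Kset (hs : Setup n w r) (hb : (boost (Finset.range n) r).card < w * w)
    {h : ℕ} (hh1 : 2 * h + 2 ≤ n) (hh2 : n ≤ 2 * h + 3) : w ≤ (Kset h r).card := by
  classical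
  by_contra hK
  push Not at hK
  have hw := hs.hw
  have hn := hs.hn
  obtain ⟨a, ha, haK⟩ : ∃ a, a < w ∧ a ∉ Kset h r := by
    by_contra hcon
    push Not at hcon
    have hsub : Finset.range w ⊆ Kset h r := by
      intro a ha
      exact hcon a (Finset.mem_range.mp ha)
    have := Finset.card_le_card hsub
    rw [Finset.card_range] at this
    omega
  by_cases hcase : ∃ b, h - 26 * w ≤ b ∧ b < h ∧ r b 0 ∧ r b (a + 1)
  · obtain ⟨b, hb1, hb2, hb0, hba⟩ := hcase
    exact hs.alpha hb hh1 hh2 hK ha haK hb1 hb2 hb0 hba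
  · push Not at hcase
    exact hs.beta hb hh1 hh2 ha haK hcase

/-- the reversed digraph -/
def rev (n : ℕ) (r : ℕ → ℕ → Prop) : ℕ → ℕ → Prop :=
  fun i j => r (n - 1 - j) (n - 1 - i)

theorem HC_of_rev {n : ℕ} {r : ℕ → ℕ → Prop} (h : HC (Finset.range n) (rev n r)) :
    HC (Finset.range n) r := by
  have h' := h.flip
  refine HC.map (fun i => n - 1 - i) ?_ ?_ ?_ h'
  · intro a ha b hb hab
    rw [Finset.mem_range] at ha hb
    omega
  · intro v
    constructor
    · intro hv
      rw [Finset.mem_range] at hv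
      exact ⟨n - 1 - v, by rw [Finset.mem_range]; omega, by omega⟩
    · rintro ⟨a, ha, rfl⟩
      rw [Finset.mem_range] at ha ⊢
      omega
  · intro a ha b hb hab
    exact hab

theorem card_boost_rev {n : ℕ} {r : ℕ → ℕ → Prop} :
    (boost (Finset.range n) (rev n r)).card ≤ (boost (Finset.range n) r).card := by
  refine card_boost_le_flip.trans ?_
  refine card_boost_le_of_map (fun i => n - 1 - i) ?_ ?_ ?_
  · intro a ha b hb hab
    rw [Finset.mem_range] at ha hb
    omega
  · intro v
    constructor
    · intro hv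
      rw [Finset.mem_range] at hv
      exact ⟨n - 1 - v, by rw [Finset.mem_range]; omega, by omega⟩
    · rintro ⟨a, ha, rfl⟩
      rw [Finset.mem_range] at ha ⊢
      omega
  · intro a ha b hb hab
    exact hab

theorem Setup.reverse (hs : Setup n w r) : Setup n w (rev n r) := by
  have hw := hs.hw
  have hn := hs.hn
  refine ⟨hs.hw, hs.hn, fun i => hs.irr _, ?_, ?_, ?_, fun h => hs.nh (HC_of_rev h)⟩
  · intro i hi
    have := hs.path (n - 1 - (i + 1)) (by omega)
    unfold rev
    have e : n - 1 - (i + 1) + 1 = n - 1 - i := by omega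
    rwa [e] at this
  · intro i hi T hT
    have h1 := hs.inn (n - 1 - i) (by omega) (T.image (fun j => n - 1 - j)) (by
      intro j hj hrj
      rw [Finset.mem_image]
      refine ⟨n - 1 - j, hT _ (by omega) ?_, by omega⟩
      unfold rev
      have e : n - 1 - (n - 1 - j) = j := by omega
      rwa [e])
    have h2 := Finset.card_image_le (s := T) (f := fun j => n - 1 - j)
    omega
  · intro i hi T hT
    have h1 := hs.out (n - 1 - i) (by omega) (T.image (fun j => n - 1 - j)) (by
      intro j hj hrj
      rw [Finset.mem_image]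
      refine ⟨n - 1 - j, hT _ (by omega) ?_, by omega⟩
      unfold rev
      have e : n - 1 - (n - 1 - j) = j := by omega
      rwa [e])
    have h2 := Finset.card_image_le (s := T) (f := fun j => n - 1 - j)
    omega

/-- **Booster lemma**, on the vertex set `{0, …, n-1}`. -/
theorem Setup.boosters (hs : Setup n w r) : w * w ≤ (boost (Finset.range n) r).card := by
  classical
  by_contra hb
  push Not at hb
  have hw := hs.hw
  have hn := hs.hn
  obtain ⟨h, hh1, hh2⟩ : ∃ h, 2 * h + 2 ≤ n ∧ n ≤ 2 * h + 3 := ⟨(n - 2) / 2, by omega, by omega⟩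
  have hK := hs.card_Kset hb hh1 hh2
  have hL := hs.reverse.card_Kset (lt_of_le_of_lt card_boost_rev hb) hh1 hh2
  have hprod : ((Kset h r) ×ˢ (Kset h (rev n r))).card ≤ (boost (Finset.range n) r).card := by
    apply Finset.card_le_card_of_injOn (fun q => (n - 2 - q.2, q.1 + 1))
    · rintro ⟨k, k'⟩ hq
      rw [Finset.coe_product, Set.mem_prod, Finset.mem_coe, Finset.mem_coe, mem_Kset,
        mem_Kset] at hq
      obtain ⟨⟨hk, i, hki, hih, hi0, hk1⟩, ⟨hk', i', hki', hih', hi0', hk1'⟩⟩ := hq
      unfold rev at hi0' hk1'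
      simp only at hk hki hk1 hk' hki' hk1'
      obtain ⟨j, hj⟩ : ∃ j, j = n - 1 - i' := ⟨_, rfl⟩
      obtain ⟨l, hl⟩ : ∃ l, l = n - 2 - k' := ⟨_, rfl⟩
      have e1 : n - 1 - 0 = n - 1 := by omega
      have e2 : n - 1 - (i' + 1) = j - 1 := by omega
      have e3 : n - 1 - k' = l + 1 := by omega
      rw [e1, ← hj] at hi0'
      rw [e2, e3] at hk1'
      have hsegA := hs.seg (a := 0) (b := k + 1) (by omega) (by omega)
      have hsegB := hs.seg (a := k + 1) (b := i + 1) (by omega) (by omega)
      have hsegC := hs.seg (a := i + 1) (b := j) (by omega) (by omega)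
      have hsegD := hs.seg (a := j) (b := l + 1) (by omega) (by omega)
      have hsegE := hs.seg (a := l + 1) (b := n) (by omega) (by omega)
      simp only [Nat.add_sub_cancel] at hsegA hsegB hsegC hsegD
      have P1 := hsegB.append (hsegA.append (hsegC.append (hsegE.append hsegD hi0') hk1') hk1) hi0
      have hsplit : List.Ico 0 (k+1) ++ (List.Ico (k+1) (i+1) ++ (List.Ico (i+1) j ++
          (List.Ico j (l+1) ++ List.Ico (l+1) n))) = List.Ico 0 n := by
        rw [List.Ico.append_consecutive (by omega) (by omega),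
          List.Ico.append_consecutive (by omega) (by omega),
          List.Ico.append_consecutive (by omega) (by omega),
          List.Ico.append_consecutive (by omega) (by omega)]
      have hP : HPath (Finset.range n) r (k+1) l
          (List.Ico (k + 1) (i + 1) ++ (List.Ico 0 (k + 1) ++ (List.Ico (i + 1) j ++
            (List.Ico (l + 1) n ++ List.Ico j (l + 1))))) := by
        refine HPath.of_perm hs.base ?_ P1
        rw [← hsplit]
        exact perm_kl _ _ _ _ _
      rw [Finset.mem_coe, mem_boost]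
      simp only [← hl]
      refine ⟨?_, ?_, ?_, ?_⟩
      · rw [Finset.mem_range]; omega
      · rw [Finset.mem_range]; omega
      · omega
      · exact ⟨_, _, _, ⟨hP.1, hP.2.1, hP.2.2.mono (fun a b hab => Or.inl hab)⟩, Or.inr ⟨rfl, rfl⟩⟩
    · rintro ⟨k, k'⟩ hq ⟨m, m'⟩ hq' hEq
      rw [Finset.coe_product, Set.mem_prod, Finset.mem_coe, Finset.mem_coe, mem_Kset,
        mem_Kset] at hq hq'
      have h1 := hq.1.1
      have h2 := hq.2.1
      have h3 := hq'.1.1
      have h4 := hq'.2.1
      simp only [Prod.mk.injEq] at hEq ⊢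
      simp only at h1 h2 h3 h4
      omega
  rw [Finset.card_product] at hprod
  have := Nat.mul_le_mul hK hL
  omega

end Pool.Agent.H99.Dig
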