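import Pool.Agent.H99.Dig.Booster

/-!
# The booster lemma for a digraph on a finite type
-/

namespace Pool.Agent.H99.Dig

open Finset

variable {V : Type*} [Fintype V] [DecidableEq V]

theorem HPath.length_eq {R : V → V → Prop} {x y : V} {l : List V}
    (h : HPath (Finset.univ : Finset V) R x y l) : l.length = Fintype.card V := by
  have h1 : l.toFinset = Finset.univ := by
    ext v
    simp only [List.mem_toFinset, Finset.mem_univ, iff_true]
    exact (h.2.1 v).mpr (Finset.mem_univ v)
  have h2 := List.toFinset_card_of_nodup h.1
  rw [h1] at h2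
  rw [← h2]; rfl

open Classical in
/-- **Booster lemma.** A digraph on `n ≥ 400 w` vertices (`w ≥ 1`) with all in- and outdegrees at
least `n/2 - w`, which has a Hamilton path but no Hamilton cycle, has at least `w^2` boosters. -/
theorem boosters_of_path {R : V → V → Prop} {w : ℕ} (hw : 1 ≤ w)
    (hn : 400 * w ≤ Fintype.card V) (hirr : ∀ v, ¬ R v v)
    (hout : ∀ v, Fintype.card V ≤ 2 * (Finset.univ.filter (fun u => R v u)).card + 2 * w)
    (hin : ∀ v, Fintype.card V ≤ 2 * (Finset.univ.filter (fun u => R u v)).card + 2 * w)
    {x y : V} {l : List V} (hP : HPath (Finset.univ : Finset V) R x y l)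
    (hnh : ¬ HC (Finset.univ : Finset V) R) :
    w * w ≤ (boost (Finset.univ : Finset V) R).card := by
  have hlen := hP.length_eq
  set n := Fintype.card V with hndef
  let v : ℕ → V := fun i => l.getD i x
  have hv : ∀ i (hi : i < l.length), v i = l[i] := fun i hi => List.getD_eq_getElem _ _ hi
  have hinj : ∀ a, a < n → ∀ b, b < n → v a = v b → a = b := by
    intro a ha b hb hab
    rw [hv a (by omega), hv b (by omega)] at hab
    exact hP.1.getElem_inj_iff.mp hab
  have hsurj : ∀ u : V, ∃ a, a < n ∧ v a = u := by
    intro u
    have hu : u ∈ l := (hP.2.1 u).mpr (Finset.mem_univ u)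
    obtain ⟨k, hk, hku⟩ := List.getElem_of_mem hu
    exact ⟨k, by omega, by rw [hv k hk, hku]⟩
  let r : ℕ → ℕ → Prop := fun i j => R (v i) (v j)
  have hmapHC : HC (Finset.range n) r → HC (Finset.univ : Finset V) R := by
    refine HC.map v ?_ ?_ ?_
    · intro a ha b hb hab
      exact hinj a (Finset.mem_range.mp ha) b (Finset.mem_range.mp hb) hab
    · intro u
      simp only [Finset.mem_univ, Finset.mem_range, true_iff]
      exact hsurj u
    · intro a _ b _ hab; exact hab
  have hs : Setup n w r := by
    refine ⟨hw, hn, fun i => hirr _, ?_, ?_, ?_, fun h => hnh (hmapHC h)⟩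
    · intro i hi
      have := hP.2.2.1
      rw [List.isChain_iff_getElem] at this
      have h1 := this i (by omega)
      change R (v i) (v (i+1))
      rw [hv i (by omega), hv (i+1) (by omega)]
      exact h1
    · intro i hi T hT
      have h1 := hout (v i)
      have hsub : (Finset.univ.filter (fun u => R (v i) u)) ⊆ T.image v := by
        intro u hu
        rw [Finset.mem_filter] at hu
        obtain ⟨a, ha, rfl⟩ := hsurj u
        rw [Finset.mem_image]
        exact ⟨a, hT a ha hu.2, rfl⟩
      have h2 := (Finset.card_le_card hsub).trans Finset.card_image_le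
      omega
    · intro i hi T hT
      have h1 := hin (v i)
      have hsub : (Finset.univ.filter (fun u => R u (v i))) ⊆ T.image v := by
        intro u hu
        rw [Finset.mem_filter] at hu
        obtain ⟨a, ha, rfl⟩ := hsurj u
        rw [Finset.mem_image]
        exact ⟨a, hT a ha hu.2, rfl⟩
      have h2 := (Finset.card_le_card hsub).trans Finset.card_image_le
      omega
  refine hs.boosters.trans ?_
  refine card_boost_le_of_map v ?_ ?_ ?_
  · intro a ha b hb hab
    exact hinj a (Finset.mem_range.mp ha) b (Finset.mem_range.mp hb) hab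
  · intro u
    simp only [Finset.mem_univ, Finset.mem_range, true_iff]
    exact hsurj u
  · intro a _ b _ hab; exact hab

end Pool.Agent.H99.Dig
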