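import Pool.Agent.H99.Dig.GH

/-!
# Adding universal vertices
-/

namespace Pool.Agent.H99.Dig

open Finset

variable {V : Type*}

/-- `R` with `t` universal vertices added. -/
def ext (R : V → V → Prop) (t : ℕ) : V ⊕ Fin t → V ⊕ Fin t → Prop
  | Sum.inl a, Sum.inl b => R a b
  | Sum.inl _, Sum.inr _ => True
  | Sum.inr _, Sum.inl _ => True
  | Sum.inr i, Sum.inr j => i ≠ j

theorem ext_irrefl {R : V → V → Prop} (hirr : ∀ v, ¬ R v v) (t : ℕ) : ∀ v, ¬ ext R t v v := by
  rintro (a | i)
  · exact hirr a
  · simp [ext]

theorem ext_mono {R R' : V → V → Prop} (h : ∀ a b, R a b → R' a b) (t : ℕ) :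
    ∀ a b, ext R t a b → ext R' t a b := by
  rintro (a | i) (b | j) hab
  · exact h a b hab
  · trivial
  · trivial
  · exact hab

section
variable [Fintype V]

open Classical in
theorem ext_outdeg (R : V → V → Prop) (t : ℕ) (a : V) :
    (Finset.univ.filter (fun u => R a u)).card + t ≤
      (Finset.univ.filter (fun u => ext R t (Sum.inl a) u)).card := by
  have hsub : (Finset.univ.filter (fun u => R a u)).disjSum (Finset.univ : Finset (Fin t)) ⊆
      (Finset.univ.filter (fun u => ext R t (Sum.inl a) u)) := by
    intro u hu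
    rw [Finset.mem_filter]
    refine ⟨Finset.mem_univ _, ?_⟩
    rcases u with b | j
    · rw [Finset.inl_mem_disjSum, Finset.mem_filter] at hu
      exact hu.2
    · trivial
  have := Finset.card_le_card hsub
  rw [Finset.card_disjSum, Finset.card_univ, Fintype.card_fin] at this
  exact this

open Classical in
theorem ext_indeg (R : V → V → Prop) (t : ℕ) (a : V) :
    (Finset.univ.filter (fun u => R u a)).card + t ≤
      (Finset.univ.filter (fun u => ext R t u (Sum.inl a))).card := by
  have hsub : (Finset.univ.filter (fun u => R u a)).disjSum (Finset.univ : Finset (Fin t)) ⊆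
      (Finset.univ.filter (fun u => ext R t u (Sum.inl a))) := by
    intro u hu
    rw [Finset.mem_filter]
    refine ⟨Finset.mem_univ _, ?_⟩
    rcases u with b | j
    · rw [Finset.inl_mem_disjSum, Finset.mem_filter] at hu
      exact hu.2
    · trivial
  have := Finset.card_le_card hsub
  rw [Finset.card_disjSum, Finset.card_univ, Fintype.card_fin] at this
  exact this

open Classical in
theorem ext_outdeg_inr (R : V → V → Prop) (t : ℕ) (i : Fin t) :
    Fintype.card V + (t - 1) ≤
      (Finset.univ.filter (fun u => ext R t (Sum.inr i) u)).card := by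
  have hsub : (Finset.univ : Finset V).disjSum ((Finset.univ : Finset (Fin t)).erase i) ⊆
      (Finset.univ.filter (fun u => ext R t (Sum.inr i) u)) := by
    intro u hu
    rw [Finset.mem_filter]
    refine ⟨Finset.mem_univ _, ?_⟩
    rcases u with b | j
    · trivial
    · rw [Finset.inr_mem_disjSum, Finset.mem_erase] at hu
      exact fun h => hu.1 h.symm
  have := Finset.card_le_card hsub
  rw [Finset.card_disjSum, Finset.card_erase_of_mem (Finset.mem_univ _), Finset.card_univ,
    Finset.card_univ, Fintype.card_fin] at this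
  exact this

open Classical in
theorem ext_indeg_inr (R : V → V → Prop) (t : ℕ) (i : Fin t) :
    Fintype.card V + (t - 1) ≤
      (Finset.univ.filter (fun u => ext R t u (Sum.inr i))).card := by
  have hsub : (Finset.univ : Finset V).disjSum ((Finset.univ : Finset (Fin t)).erase i) ⊆
      (Finset.univ.filter (fun u => ext R t u (Sum.inr i))) := by
    intro u hu
    rw [Finset.mem_filter]
    refine ⟨Finset.mem_univ _, ?_⟩
    rcases u with b | j
    · trivial
    · rw [Finset.inr_mem_disjSum, Finset.mem_erase] at hu
      exact hu.1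
  have := Finset.card_le_card hsub
  rw [Finset.card_disjSum, Finset.card_erase_of_mem (Finset.mem_univ _), Finset.card_univ,
    Finset.card_univ, Fintype.card_fin] at this
  exact this

variable [DecidableEq V]

open Classical in
/-- By Ghouila-Houri, adding `t ≥ n - 2 δ⁰` universal vertices gives a Hamiltonian digraph. -/
theorem ext_HC {R : V → V → Prop} (hirr : ∀ v, ¬ R v v) {t : ℕ}
    (h2 : 2 ≤ Fintype.card V + t)
    (hout : ∀ v, Fintype.card V ≤ 2 * (Finset.univ.filter (fun u => R v u)).card + t)
    (hin : ∀ v, Fintype.card V ≤ 2 * (Finset.univ.filter (fun u => R u v)).card + t) :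
    HC (Finset.univ : Finset (V ⊕ Fin t)) (ext R t) := by
  apply ghouila_houri (ext_irrefl hirr t)
  · rw [Fintype.card_sum, Fintype.card_fin]; exact h2
  · rintro (a | i)
    · have := ext_outdeg R t a
      have := hout a
      rw [Fintype.card_sum, Fintype.card_fin]
      omega
    · have := ext_outdeg_inr R t i
      have := i.pos
      rw [Fintype.card_sum, Fintype.card_fin]
      omega
  · rintro (a | i)
    · have := ext_indeg R t a
      have := hin a
      rw [Fintype.card_sum, Fintype.card_fin]
      omega
    · have := ext_indeg_inr R t i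
      have := i.pos
      rw [Fintype.card_sum, Fintype.card_fin]
      omega

/-- the least number of universal vertices whose addition creates a Hamilton cycle -/
noncomputable def hnum (R : V → V → Prop) : ℕ :=
  sInf {t | HC (Finset.univ : Finset (V ⊕ Fin t)) (ext R t)}

open Classical in
theorem hnum_spec {R : V → V → Prop} (hirr : ∀ v, ¬ R v v) (h2 : 2 ≤ Fintype.card V) :
    HC (Finset.univ : Finset (V ⊕ Fin (hnum R))) (ext R (hnum R)) := by
  have hne : {t | HC (Finset.univ : Finset (V ⊕ Fin t)) (ext R t)}.Nonempty := by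
    refine ⟨Fintype.card V, ext_HC hirr (by omega) (fun v => by omega) (fun v => by omega)⟩
  exact Nat.sInf_mem hne

omit [DecidableEq V] in
theorem hnum_le {R : V → V → Prop} {t : ℕ}
    (h : HC (Finset.univ : Finset (V ⊕ Fin t)) (ext R t)) : hnum R ≤ t := Nat.sInf_le h

omit [DecidableEq V] in
theorem not_HC_of_lt_hnum {R : V → V → Prop} {t : ℕ} (h : t < hnum R) :
    ¬ HC (Finset.univ : Finset (V ⊕ Fin t)) (ext R t) := Nat.notMem_of_lt_sInf h

theorem hnum_mono {R R' : V → V → Prop} (hirr : ∀ v, ¬ R v v) (h2 : 2 ≤ Fintype.card V)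
    (h : ∀ a b, R a b → R' a b) : hnum R' ≤ hnum R :=
  hnum_le ((hnum_spec hirr h2).mono (ext_mono h _))

theorem HC_of_hnum_eq_zero {R : V → V → Prop} (hirr : ∀ v, ¬ R v v) (h2 : 2 ≤ Fintype.card V)
    (h : hnum R = 0) : HC (Finset.univ : Finset V) R := by
  have h1 := hnum_spec hirr h2
  rw [h] at h1
  refine HC.map (fun v => Sum.elim id (fun i => i.elim0) v) ?_ ?_ ?_ h1
  · rintro (a | i) _ (b | j) _ hab
    · simp only [Sum.elim_inl, id] at hab; rw [hab]
    · exact j.elim0
    · exact i.elim0
    · exact i.elim0
  · intro v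
    simp only [Finset.mem_univ, true_iff]
    exact ⟨Sum.inl v, trivial, rfl⟩
  · rintro (a | i) _ (b | j) _ hab
    · exact hab
    · exact j.elim0
    · exact i.elim0
    · exact i.elim0

theorem hnum_eq_zero_of_HC {R : V → V → Prop}
    (h : HC (Finset.univ : Finset V) R) : hnum R = 0 := by
  have : hnum R ≤ 0 := by
    apply hnum_le
    refine HC.map (fun v => Sum.inl v) ?_ ?_ ?_ h
    · intro a _ b _ hab; exact Sum.inl_injective hab
    · intro v
      simp only [Finset.mem_univ, true_iff]
      rcases v with a | i
      · exact ⟨a, trivial, rfl⟩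
      · exact i.elim0
    · intro a _ b _ hab; exact hab
  omega

end

/-- a Hamilton cycle can be started anywhere -/
theorem HC.rotate {S : Finset V} {r : V → V → Prop} (h : HC S r) {u : V} (hu : u ∈ S) :
    ∃ (l : List V) (y : V), HPath S r u y l ∧ r y u := by
  obtain ⟨l, x, y, ⟨hnd, hm, hP⟩, hyx⟩ := h
  have hul : u ∈ l := (hm u).mpr hu
  obtain ⟨l₁, l₂, rfl⟩ := List.append_of_mem hul
  rcases List.eq_nil_or_concat l₁ with rfl | ⟨l₁', z, rfl⟩
  · refine ⟨_, y, ⟨hnd, hm, ?_⟩, ?_⟩
    · simp only [List.nil_append] at hP ⊢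
      have : x = u := by simpa using hP.2.1.symm
      rw [← this] at hP ⊢; exact hP
    · simp only [List.nil_append] at hP ⊢
      have : x = u := by simpa using hP.2.1.symm
      rw [← this]; exact hyx
  · obtain ⟨hc, hh, hl⟩ := hP
    have hc' := hc
    rw [List.isChain_append] at hc
    obtain ⟨hc1, hc2, hc3⟩ := hc
    have hP2 : Pth r u y (u :: l₂) := by
      refine ⟨hc2, by simp, ?_⟩
      rw [List.getLast?_append] at hl
      have : (u :: l₂).getLast? ≠ none := by simp
      rcases hq : (u :: l₂).getLast? with _ | q
      · exact absurd hq this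
      · rw [hq] at hl; simpa using hl
    have hP1 : Pth r x z (l₁' ++ [z]) := by
      refine ⟨by simpa using hc1, ?_, by simp⟩
      have hne : (l₁' ++ [z]) ≠ [] := by simp
      rw [List.concat_eq_append] at hh
      rw [List.head?_append] at hh
      rcases hq : (l₁' ++ [z]).head? with _ | q
      · simp at hq
      · rw [hq] at hh; simpa using hh
    have hzu : r z u := by
      apply hc3
      · simp
      · simp
    rw [List.concat_eq_append] at hnd hm
    rw [List.concat_eq_append] at hc' hh hl
    have hbase : HPath S r x y (l₁' ++ [z] ++ u :: l₂) := ⟨hnd, hm, hc', hh, hl⟩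
    exact ⟨(u :: l₂) ++ (l₁' ++ [z]), z, HPath.of_perm hbase List.perm_append_comm
      (hP2.append hP1 hyx), hzu⟩

/-- if `t + 1` universal vertices create a Hamilton cycle, then `t` of them create a Hamilton path -/
theorem HPath_of_HC_succ [Fintype V] [DecidableEq V] {R : V → V → Prop} (hirr : ∀ v, ¬ R v v)
    {t : ℕ} (h : HC (Finset.univ : Finset (V ⊕ Fin (t+1))) (ext R (t+1))) :
    ∃ (l : List (V ⊕ Fin t)) (x y : V ⊕ Fin t),
      HPath (Finset.univ : Finset (V ⊕ Fin t)) (ext R t) x y l := by
  obtain ⟨l, y, ⟨hnd, hm, hc, hh, hl⟩, hyu⟩ := h.rotate (Finset.mem_univ (Sum.inr (Fin.last t)))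
  obtain ⟨l', rfl⟩ : ∃ l', l = Sum.inr (Fin.last t) :: l' := by
    rcases l with _ | ⟨a, l'⟩
    · simp at hh
    · simp only [List.head?_cons, Option.some.injEq] at hh
      exact ⟨l', by rw [hh]⟩
  -- the embedding
  let e : V ⊕ Fin t → V ⊕ Fin (t+1) := Sum.map id Fin.castSucc
  have he : Function.Injective e := Function.Injective.sumMap Function.injective_id
    (Fin.castSucc_injective t)
  have hee : ∀ a b, ext R (t+1) (e a) (e b) → ext R t a b := by
    rintro (a | i) (b | j) hab
    · exact hab
    · trivial
    · trivial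
    · intro hij; exact hab (by rw [hij])
  have hrange : ∀ v ∈ l', ∃ a, e a = v := by
    intro v hv
    rcases v with a | i
    · exact ⟨Sum.inl a, rfl⟩
    · have hi : i ≠ Fin.last t := by
        rintro rfl
        rw [List.nodup_cons] at hnd
        exact hnd.1 hv
      exact ⟨Sum.inr (i.castPred hi), by simp [e]⟩
  obtain ⟨l'', hl''⟩ : ∃ l'' : List (V ⊕ Fin t), l''.map e = l' := by
    have : l' ∈ Set.range (List.map e) := by
      rw [Set.range_list_map]
      intro v hv
      exact hrange v hv
    exact this
  subst hl''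
  rw [List.nodup_cons] at hnd
  have hne : l'' ≠ [] := by
    rintro rfl
    simp only [List.map_nil, List.getLast?_singleton, Option.some.injEq] at hl
    rw [← hl] at hyu
    exact ext_irrefl hirr _ _ hyu
  have hpos : 0 < l''.length := List.length_pos_iff.mpr hne
  refine ⟨l'', _, _, hnd.2.of_map, ?_, pth_of_chain ?_ hpos⟩
  · intro v
    simp only [Finset.mem_univ, iff_true]
    have h1 := (hm (e v)).mpr (Finset.mem_univ _)
    rw [List.mem_cons] at h1
    rcases h1 with h1 | h1
    · exfalso
      rcases v with a | i
      · simp [e] at h1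
      · simp only [Sum.map_inr, e, Sum.inr.injEq] at h1
        exact Fin.castSucc_ne_last i h1
    · rw [List.mem_map] at h1
      obtain ⟨a, ha, hav⟩ := h1
      rwa [← he hav]
  · have h1 := hc.tail
    simp only [List.tail_cons] at h1
    rw [List.isChain_map] at h1
    exact h1.imp (fun a b hab => hee a b hab)

open Classical in
/-- The booster property of `hnum`. -/
theorem hnum_boosters [Fintype V] [DecidableEq V] {R : V → V → Prop} {w : ℕ} (hw : 1 ≤ w)
    (hn : 400 * w ≤ Fintype.card V) (hirr : ∀ v, ¬ R v v)
    (hout : ∀ v, Fintype.card V ≤ 2 * (Finset.univ.filter (fun u => R v u)).card + 2 * w)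
    (hin : ∀ v, Fintype.card V ≤ 2 * (Finset.univ.filter (fun u => R u v)).card + 2 * w)
    (hh : 0 < hnum R) :
    w * w ≤ ((Finset.univ : Finset (V × V)).filter
      (fun e => e.1 ≠ e.2 ∧ hnum (addE R e) < hnum R)).card := by
  obtain ⟨t, ht⟩ : ∃ t, hnum R = t + 1 := ⟨hnum R - 1, by omega⟩
  have h1 := hnum_spec hirr (by omega)
  rw [ht] at h1
  obtain ⟨l, x, y, hP⟩ := HPath_of_HC_succ hirr h1
  have hnot : ¬ HC (Finset.univ : Finset (V ⊕ Fin t)) (ext R t) :=
    not_HC_of_lt_hnum (by omega)
  have hb := boosters_of_path (V := V ⊕ Fin t) (R := ext R t) hw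
    (by rw [Fintype.card_sum, Fintype.card_fin]; omega) (ext_irrefl hirr t)
    (by
      rintro (a | i)
      · have := ext_outdeg R t a
        have := hout a
        rw [Fintype.card_sum, Fintype.card_fin]
        omega
      · have := ext_outdeg_inr R t i
        have := i.pos
        rw [Fintype.card_sum, Fintype.card_fin]
        omega)
    (by
      rintro (a | i)
      · have := ext_indeg R t a
        have := hin a
        rw [Fintype.card_sum, Fintype.card_fin]
        omega
      · have := ext_indeg_inr R t i
        have := i.pos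
        rw [Fintype.card_sum, Fintype.card_fin]
        omega) hP hnot
  refine hb.trans ?_
  apply le_trans (Finset.card_le_card (t := ((Finset.univ : Finset (V × V)).filter
      (fun e => e.1 ≠ e.2 ∧ hnum (addE R e) < hnum R)).image
        (fun e => (Sum.inl e.1, Sum.inl e.2))) ?_) Finset.card_image_le
  rintro ⟨u, v⟩ he
  rw [mem_boost] at he
  obtain ⟨_, _, hne, hHC⟩ := he
  simp only at hne
  rw [Finset.mem_image]
  have hbad : ext R t u v → False := by
    intro huv
    apply hnot
    apply hHC.mono
    intro a b hab
    rcases hab with hab | ⟨rfl, rfl⟩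
    · exact hab
    · exact huv
  rcases u with a | i
  · rcases v with b | j
    · refine ⟨(a, b), ?_, rfl⟩
      rw [Finset.mem_filter]
      refine ⟨Finset.mem_univ _, fun h => hne (by simp only at h; rw [h]), ?_⟩
      rw [ht, Nat.lt_succ_iff]
      apply hnum_le
      apply hHC.mono
      rintro (a' | i') (b' | j') hab
      · rcases hab with hab | ⟨h1, h2⟩
        · exact Or.inl hab
        · right
          simp only [Sum.inl.injEq] at h1 h2
          exact ⟨h1, h2⟩
      · trivial
      · trivial
      · rcases hab with hab | ⟨h1, h2⟩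
        · exact hab
        · simp at h1
    · exact (hbad trivial).elim
  · rcases v with b | j
    · exact (hbad trivial).elim
    · exact (hbad (fun h => hne (by rw [h]))).elim

end Pool.Agent.H99.Dig
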