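import Pool.Agent.H99.Dig.BoosterGen

/-!
# The Ghouila-Houri theorem
-/

namespace Pool.Agent.H99.Dig

open Finset

/-- Sumset of a set with an interval in `ZMod l`. -/
theorem sumset_interval {l : ℕ} [NeZero l] (A B : Finset (ZMod l)) (hA : A.Nonempty)
    (hB : B.Nonempty) {q : ℕ} (hq : 1 ≤ q)
    (hAB : ∀ a ∈ A, ∀ j : ℕ, 1 ≤ j → j ≤ q → a + (j : ZMod l) ∉ B) :
    A.card + B.card + (q - 1) ≤ l := by
  classical
  -- `C k = A + [1, k]`
  let C : ℕ → Finset (ZMod l) := fun k => (Finset.Icc 1 k).biUnion (fun j => A.image (· + (j : ZMod l)))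
  have hCdisj : ∀ k, k ≤ q → ∀ z ∈ C k, z ∉ B := by
    intro k hk z hz
    simp only [C, Finset.mem_biUnion, Finset.mem_Icc, Finset.mem_image] at hz
    obtain ⟨j, ⟨hj1, hj2⟩, a, ha, rfl⟩ := hz
    exact hAB a ha j hj1 (by omega)
  have hstep : ∀ k, k ≤ q → ∀ z ∈ C k, z + 1 ∈ C (k + 1) := by
    intro k hk z hz
    simp only [C, Finset.mem_biUnion, Finset.mem_Icc, Finset.mem_image] at hz ⊢
    obtain ⟨j, ⟨hj1, hj2⟩, a, ha, rfl⟩ := hz
    exact ⟨j + 1, ⟨by omega, by omega⟩, a, ha, by push_cast; ring⟩
  have hmono : ∀ k, C k ⊆ C (k + 1) := by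
    intro k z hz
    simp only [C, Finset.mem_biUnion, Finset.mem_Icc, Finset.mem_image] at hz ⊢
    obtain ⟨j, ⟨hj1, hj2⟩, a, ha, rfl⟩ := hz
    exact ⟨j, ⟨by omega, by omega⟩, a, ha, rfl⟩
  have hcard : ∀ k, 1 ≤ k → k ≤ q → A.card + (k - 1) ≤ (C k).card := by
    intro k hk1
    induction k, hk1 using Nat.le_induction with
    | base =>
      intro _
      have : C 1 = A.image (· + ((1 : ℕ) : ZMod l)) := by
        simp only [C]
        simp
      rw [this, Finset.card_image_of_injective _ (add_left_injective _)]
      omega
    | succ k hk ih =>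
      intro hkq
      have ih' := ih (by omega)
      -- there is `z ∈ C k` with `z + 1 ∉ C k`
      have hex : ∃ z ∈ C k, z + 1 ∉ C k := by
        by_contra hcon
        push Not at hcon
        have hne : (C k).Nonempty := by
          rw [← Finset.card_pos]
          have := hA.card_pos
          omega
        obtain ⟨z₀, hz₀⟩ := hne
        have hall : ∀ t : ℕ, z₀ + (t : ZMod l) ∈ C k := by
          intro t
          induction t with
          | zero => simpa using hz₀
          | succ t iht =>
            have := hcon _ iht
            push_cast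
            rwa [← add_assoc]
        obtain ⟨b, hb⟩ := hB
        have h1 := hall (b - z₀).val
        rw [ZMod.natCast_zmod_val] at h1
        rw [add_sub_cancel] at h1
        exact hCdisj k (by omega) b h1 hb
      obtain ⟨z, hz, hz1⟩ := hex
      have hins : insert (z + 1) (C k) ⊆ C (k + 1) := by
        intro u hu
        rw [Finset.mem_insert] at hu
        rcases hu with rfl | hu
        · exact hstep k (by omega) z hz
        · exact hmono k hu
      have h2 := Finset.card_le_card hins
      rw [Finset.card_insert_of_notMem hz1] at h2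
      omega
  have h1 := hcard q hq le_rfl
  have hdisj : Disjoint (C q) B := by
    rw [Finset.disjoint_left]
    intro z hz hzB
    exact hCdisj q le_rfl z hz hzB
  have h2 := Finset.card_union_of_disjoint hdisj
  have h3 := Finset.card_le_univ (C q ∪ B)
  rw [ZMod.card] at h3
  omega

/-- a nonempty family of lists of bounded length has a longest member -/
theorem exists_longest {V : Type*} (P : List V → Prop) (N : ℕ) (hN : ∀ L, P L → L.length ≤ N)
    {L₀ : List V} (h0 : P L₀) : ∃ L, P L ∧ ∀ L', P L' → L'.length ≤ L.length := by
  classical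
  have hex : ∃ m, ∃ L, P L ∧ L.length = N - m := ⟨N - L₀.length, L₀, h0, by have := hN _ h0; omega⟩
  obtain ⟨L, hL, hlen⟩ := Nat.find_spec hex
  refine ⟨L, hL, ?_⟩
  intro L' hL'
  by_contra hcon
  push Not at hcon
  have hN' := hN _ hL'
  have := Nat.find_min hex (m := N - L'.length) (by omega)
  exact this ⟨L', hL', by omega⟩

section

variable {V : Type*} [Fintype V] [DecidableEq V]

/-- `L` is a directed cycle of `R`. -/
def Cyc (R : V → V → Prop) (L : List V) : Prop :=
  L.Nodup ∧ ∃ x y, Pth R x y L ∧ R y x

omit [Fintype V] [DecidableEq V] in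
theorem pth_of_chain {R : V → V → Prop} {L : List V} (hc : L.IsChain R) (hne : 0 < L.length) :
    Pth R L[0] (L[L.length - 1]'(by omega)) L := by
  refine ⟨hc, ?_, ?_⟩
  · rw [List.head?_eq_getElem?, List.getElem?_eq_getElem (by omega)]
  · rw [List.getLast?_eq_getElem?, List.getElem?_eq_getElem (by omega)]

theorem length_le_card {L : List V} (h : L.Nodup) : L.length ≤ Fintype.card V := by
  rw [← List.toFinset_card_of_nodup h]; exact Finset.card_le_univ _

open Classical in
/-- long cycle from a longest path -/
theorem exists_long_cycle {R : V → V → Prop} (hirr : ∀ v, ¬ R v v)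
    (h2 : 2 ≤ Fintype.card V)
    (hout : ∀ v, Fintype.card V ≤ 2 * (Finset.univ.filter (fun u => R v u)).card) :
    ∃ L : List V, Cyc R L ∧ Fintype.card V + 2 ≤ 2 * L.length := by
  have hne : Nonempty V := by
    rw [← Fintype.card_pos_iff]; omega
  obtain ⟨v₀⟩ := hne
  obtain ⟨L, ⟨hLne, hLnd, hLc⟩, hmax⟩ := exists_longest
    (fun L : List V => 0 < L.length ∧ L.Nodup ∧ L.IsChain R) (Fintype.card V)
    (fun L hL => length_le_card hL.2.1) (L₀ := [v₀]) ⟨by simp, by simp, by simp⟩
  have hP := pth_of_chain hLc hLne
  set y := L[L.length - 1] with hy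
  have hall : ∀ u, R y u → u ∈ L := by
    intro u hu
    by_contra hcon
    have hP' := hP.append (l₂ := [u]) (z := u) (w := u) ⟨by simp, by simp, by simp⟩ hu
    have := hmax (L ++ [u]) ⟨by simp, by
      rw [List.nodup_append]
      refine ⟨hLnd, by simp, ?_⟩
      intro a ha b hb
      simp only [List.mem_singleton] at hb
      subst hb
      rintro rfl; exact hcon ha, hP'.1⟩
    simp at this
  have hdeg := hout y
  have hexu : ∃ i, ∃ hi : i < L.length, R y L[i] := by
    have : 0 < (Finset.univ.filter (fun u => R y u)).card := by omega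
    obtain ⟨u, hu⟩ := Finset.card_pos.mp this
    rw [Finset.mem_filter] at hu
    obtain ⟨k, hk, hku⟩ := List.getElem_of_mem (hall u hu.2)
    exact ⟨k, hk, by rw [hku]; exact hu.2⟩
  obtain ⟨i, ⟨hi, hri⟩, hmin⟩ : ∃ i, (∃ hi : i < L.length, R y L[i]) ∧
      ∀ j, j < i → ¬ ∃ hj : j < L.length, R y L[j] :=
    ⟨Nat.find hexu, Nat.find_spec hexu, fun j hj => Nat.find_min hexu hj⟩
  have hseg := Pth.seg hLc (i := i) (j := L.length) hi le_rfl
  have htake : (L.drop i).take (L.length - i) = L.drop i := by
    apply List.take_of_length_le; simp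
  rw [htake] at hseg
  refine ⟨L.drop i, ⟨hLnd.sublist (List.drop_sublist _ _), _, _, hseg, hri⟩, ?_⟩
  have hsub : insert y (Finset.univ.filter (fun u => R y u)) ⊆ (L.drop i).toFinset := by
    intro u hu
    rw [List.mem_toFinset]
    rw [Finset.mem_insert, Finset.mem_filter] at hu
    rcases hu with rfl | ⟨_, hu⟩
    · rw [List.mem_iff_getElem]
      refine ⟨L.length - 1 - i, by simp; omega, ?_⟩
      rw [List.getElem_drop]
      congr 1; omega
    · obtain ⟨k, hk, hku⟩ := List.getElem_of_mem (hall u hu)
      have hik : i ≤ k := by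
        by_contra hcon
        exact hmin k (by omega) ⟨hk, by rw [hku]; exact hu⟩
      rw [List.mem_iff_getElem]
      refine ⟨k - i, by simp; omega, ?_⟩
      rw [List.getElem_drop, ← hku]
      congr 1; omega
  have hc := Finset.card_le_card hsub
  rw [Finset.card_insert_of_notMem (by
    rw [Finset.mem_filter]; rintro ⟨_, h⟩; exact hirr _ h)] at hc
  rw [List.toFinset_card_of_nodup (hLnd.sublist (List.drop_sublist _ _))] at hc
  omega

open Classical in
/-- **Ghouila-Houri's theorem.** -/
theorem ghouila_houri {R : V → V → Prop} (hirr : ∀ v, ¬ R v v)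
    (h2 : 2 ≤ Fintype.card V)
    (hout : ∀ v, Fintype.card V ≤ 2 * (Finset.univ.filter (fun u => R v u)).card)
    (hin : ∀ v, Fintype.card V ≤ 2 * (Finset.univ.filter (fun u => R u v)).card) :
    HC (Finset.univ : Finset V) R := by
  obtain ⟨L₀, hL₀, hL₀len⟩ := exists_long_cycle hirr h2 hout
  obtain ⟨L, hL, hmax⟩ := exists_longest (Cyc R) (Fintype.card V)
    (fun L hL => length_le_card hL.1) hL₀
  have hLlen : Fintype.card V + 2 ≤ 2 * L.length := by
    have := hmax _ hL₀; omega
  obtain ⟨hLnd, x₀, y₀, hLP, hLyx⟩ := hL
  by_cases hfull : ∀ v, v ∈ L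
  · exact ⟨L, x₀, y₀, ⟨hLnd, fun v => ⟨fun _ => Finset.mem_univ v, fun _ => hfull v⟩, hLP⟩, hLyx⟩
  exfalso
  push Not at hfull
  obtain ⟨v₀, hv₀⟩ := hfull
  -- longest path outside
  obtain ⟨Q, ⟨hQne, hQnd, hQc, hQav⟩, hQmax⟩ := exists_longest
    (fun Q : List V => 0 < Q.length ∧ Q.Nodup ∧ Q.IsChain R ∧ ∀ v ∈ Q, v ∉ L) (Fintype.card V)
    (fun L hL => length_le_card hL.2.1) (L₀ := [v₀]) ⟨by simp, by simp, by simp, by simpa using hv₀⟩
  have hQP := pth_of_chain hQc hQne
  set x := Q[0] with hx
  set y := Q[Q.length - 1] with hy
  set l := L.length with hl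
  set q := Q.length with hq
  have hlpos : 0 < l := by omega
  have : NeZero l := ⟨by omega⟩
  -- sizes
  have hlq : l + q ≤ Fintype.card V := by
    have hnd : (L ++ Q).Nodup := by
      rw [List.nodup_append]
      exact ⟨hLnd, hQnd, fun a ha b hb hab => hQav b hb (hab ▸ ha)⟩
    have := length_le_card hnd
    rw [List.length_append] at this
    omega
  -- cyclic parametrisation
  let c : ZMod l → V := fun z => L[z.val]'(ZMod.val_lt z)
  have hcinj : Function.Injective c := by
    intro a b hab
    have := hLnd.getElem_inj_iff.mp hab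
    exact ZMod.val_injective l this
  have hcmem : ∀ v, v ∈ L ↔ ∃ z, c z = v := by
    intro v
    constructor
    · intro hv
      obtain ⟨k, hk, hkv⟩ := List.getElem_of_mem hv
      refine ⟨(k : ZMod l), ?_⟩
      have : ((k : ℕ) : ZMod l).val = k := ZMod.val_natCast_of_lt hk
      simp only [c, this, hkv]
    · rintro ⟨z, rfl⟩; exact List.getElem_mem _
  have hcR : ∀ z, R (c z) (c (z + 1)) := by
    intro z
    have hzlt := ZMod.val_lt z
    by_cases hz : z.val + 1 < l
    · have hv : (z + 1).val = z.val + 1 := by
        have : z + 1 = ((z.val + 1 : ℕ) : ZMod l) := by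
          push_cast; rw [ZMod.natCast_zmod_val]
        rw [this, ZMod.val_natCast_of_lt hz]
      have h1 := hLP.1
      rw [List.isChain_iff_getElem] at h1
      have h2 := h1 z.val hz
      simp only [c, hv]
      exact h2
    · have hz' : z.val = l - 1 := by omega
      have hv : (z + 1).val = 0 := by
        have : z + 1 = ((z.val + 1 : ℕ) : ZMod l) := by
          push_cast; rw [ZMod.natCast_zmod_val]
        rw [this]
        have e : z.val + 1 = l := by omega
        rw [e, ZMod.natCast_self, ZMod.val_zero]
      simp only [c, hv, hz']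
      have e1 : L[0] = x₀ := by
        have := hLP.2.1
        rw [List.head?_eq_getElem?, List.getElem?_eq_getElem (by omega)] at this
        simpa using this
      have e2 : L[l - 1] = y₀ := by
        have := hLP.2.2
        rw [List.getLast?_eq_getElem?, List.getElem?_eq_getElem (by omega)] at this
        simpa using this
      rw [e1, e2]; exact hLyx
  let A : Finset (ZMod l) := Finset.univ.filter (fun z => R (c z) x)
  let B : Finset (ZMod l) := Finset.univ.filter (fun z => R y (c z))
  have hinx : (Finset.univ.filter (fun u => R u x)).card ≤ A.card + (q - 1) := by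
    have hsub : (Finset.univ.filter (fun u => R u x)) ⊆ A.image c ∪ Q.toFinset.erase x := by
      intro u hu
      rw [Finset.mem_filter] at hu
      rw [Finset.mem_union, Finset.mem_image, Finset.mem_erase, List.mem_toFinset]
      by_cases huL : u ∈ L
      · left
        obtain ⟨z, rfl⟩ := (hcmem u).mp huL
        exact ⟨z, by simp only [A, Finset.mem_filter, Finset.mem_univ, true_and]; exact hu.2, rfl⟩
      · right
        refine ⟨by rintro rfl; exact hirr _ hu.2, ?_⟩
        by_contra hcon
        have hP' := Pth.append (r := R) (l₁ := [u]) (x := u) (y := u) ⟨by simp, by simp, by simp⟩ hQP hu.2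
        have := hQmax ([u] ++ Q) ⟨by simp, by
          simp only [List.singleton_append, List.nodup_cons]
          exact ⟨hcon, hQnd⟩, hP'.1, by
          intro v hv
          simp only [List.singleton_append, List.mem_cons] at hv
          rcases hv with rfl | hv
          · exact huL
          · exact hQav v hv⟩
        simp only [List.length_append, List.length_singleton] at this
        omega
    have h1 := Finset.card_le_card hsub
    have h2 := Finset.card_union_le (A.image c) (Q.toFinset.erase x)
    have h3 := Finset.card_image_le (s := A) (f := c)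
    have h4 : (Q.toFinset.erase x).card = q - 1 := by
      rw [Finset.card_erase_of_mem (by rw [List.mem_toFinset]; exact List.getElem_mem _),
        List.toFinset_card_of_nodup hQnd]
    omega
  have houty : (Finset.univ.filter (fun u => R y u)).card ≤ B.card + (q - 1) := by
    have hsub : (Finset.univ.filter (fun u => R y u)) ⊆ B.image c ∪ Q.toFinset.erase y := by
      intro u hu
      rw [Finset.mem_filter] at hu
      rw [Finset.mem_union, Finset.mem_image, Finset.mem_erase, List.mem_toFinset]
      by_cases huL : u ∈ L
      · left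
        obtain ⟨z, rfl⟩ := (hcmem u).mp huL
        exact ⟨z, by simp only [B, Finset.mem_filter, Finset.mem_univ, true_and]; exact hu.2, rfl⟩
      · right
        refine ⟨by rintro rfl; exact hirr _ hu.2, ?_⟩
        by_contra hcon
        have hP' := hQP.append (l₂ := [u]) (z := u) (w := u) ⟨by simp, by simp, by simp⟩ hu.2
        have := hQmax (Q ++ [u]) ⟨by simp, by
          rw [List.nodup_append]
          refine ⟨hQnd, by simp, ?_⟩
          intro a ha b hb
          simp only [List.mem_singleton] at hb
          subst hb
          rintro rfl; exact hcon ha, hP'.1, by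
          intro v hv
          simp only [List.mem_append, List.mem_singleton] at hv
          rcases hv with hv | rfl
          · exact hQav v hv
          · exact huL⟩
        simp only [List.length_append, List.length_singleton] at this
        omega
    have h1 := Finset.card_le_card hsub
    have h2 := Finset.card_union_le (B.image c) (Q.toFinset.erase y)
    have h3 := Finset.card_image_le (s := B) (f := c)
    have h4 : (Q.toFinset.erase y).card = q - 1 := by
      rw [Finset.card_erase_of_mem (by rw [List.mem_toFinset]; exact List.getElem_mem _),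
        List.toFinset_card_of_nodup hQnd]
    omega
  have hdin := hin x
  have hdout := hout y
  have hAne : A.Nonempty := by
    rw [← Finset.card_pos]; omega
  have hBne : B.Nonempty := by
    rw [← Finset.card_pos]; omega
  have hAB : ∀ a ∈ A, ∀ j : ℕ, 1 ≤ j → j ≤ q → a + (j : ZMod l) ∉ B := by
    intro a ha j hj1 hj2 hB
    simp only [A, B, Finset.mem_filter, Finset.mem_univ, true_and] at ha hB
    -- the arc from `a + j` round to `a`
    let arc : List V := (List.range (l - j + 1)).map (fun t => c (a + j + (t : ℕ)))
    have hjl : j < l := by omega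
    have harclen : arc.length = l - j + 1 := by simp [arc]
    have harcget : ∀ (t : ℕ) (ht : t < arc.length), arc[t] = c (a + j + (t : ℕ)) := by
      intro t ht
      simp [arc]
    have harcc : arc.IsChain R := by
      rw [List.isChain_iff_getElem]
      intro t ht
      rw [harcget, harcget]
      have := hcR (a + j + (t : ℕ))
      push_cast
      rwa [add_assoc (a + (j : ZMod l))] at this
    have hP1 := pth_of_chain harcc (by omega)
    rw [harcget, harcget] at hP1
    have e0 : a + (j : ZMod l) + ((0 : ℕ) : ZMod l) = a + j := by simp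
    have e1 : a + (j : ZMod l) + ((arc.length - 1 : ℕ) : ZMod l) = a := by
      rw [harclen]
      have : l - j + 1 - 1 = l - j := by omega
      rw [this, Nat.cast_sub hjl.le, ZMod.natCast_self]
      ring
    rw [e0, e1] at hP1
    have hP2 := hP1.append hQP ha
    have hcyc : Cyc R (arc ++ Q) := by
      refine ⟨?_, _, _, hP2, hB⟩
      rw [List.nodup_append]
      refine ⟨?_, hQnd, ?_⟩
      · apply List.Nodup.map_on _ List.nodup_range
        intro s hs t ht hst
        rw [List.mem_range] at hs ht
        have h1 := hcinj hst
        have h2 : ((s : ℕ) : ZMod l) = (t : ZMod l) := by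
          exact add_left_cancel h1
        rw [ZMod.natCast_eq_natCast_iff'] at h2
        rw [Nat.mod_eq_of_lt (by omega), Nat.mod_eq_of_lt (by omega)] at h2
        exact h2
      · intro u hu v hv huv
        subst huv
        apply hQav u hv
        rw [List.mem_map] at hu
        obtain ⟨t, _, rfl⟩ := hu
        exact (hcmem _).mpr ⟨_, rfl⟩
    have := hmax _ hcyc
    rw [List.length_append, harclen] at this
    omega
  have := sumset_interval A B hAne hBne (q := q) (by omega) hAB
  omega

end

end Pool.Agent.H99.Dig
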