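import Mathlib

/-!
# Product Bernoulli weights on the subsets of a finite set
-/

namespace Pool.Agent.H99.Dig

open Finset

variable {ι : Type*} [DecidableEq ι]

/-- Expectation of `φ` of a binomial random subset of `S` with parameter `q`. -/
noncomputable def Ex (S : Finset ι) (q : ℝ) (φ : Finset ι → ℝ) : ℝ :=
  ∑ E ∈ S.powerset, q ^ E.card * (1 - q) ^ (S.card - E.card) * φ E

theorem Ex_insert {S : Finset ι} {a : ι} (ha : a ∉ S) (q : ℝ) (φ : Finset ι → ℝ) :
    Ex (insert a S) q φ = (1 - q) * Ex S q φ + q * Ex S q (fun E => φ (insert a E)) := by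
  unfold Ex
  rw [Finset.sum_powerset_insert ha, Finset.mul_sum, Finset.mul_sum,
    Finset.card_insert_of_notMem ha]
  congr 1
  · apply Finset.sum_congr rfl
    intro E hE
    rw [Finset.mem_powerset] at hE
    have h1 := Finset.card_le_card hE
    have h2 : S.card + 1 - E.card = (S.card - E.card) + 1 := by omega
    rw [h2, pow_succ]; ring
  · apply Finset.sum_congr rfl
    intro E hE
    rw [Finset.mem_powerset] at hE
    have h1 := Finset.card_le_card hE
    have haE : a ∉ E := fun h => ha (hE h)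
    rw [Finset.card_insert_of_notMem haE]
    have h2 : S.card + 1 - (E.card + 1) = S.card - E.card := by omega
    rw [h2, pow_succ]; ring

omit [DecidableEq ι] in
theorem Ex_add (S : Finset ι) (q : ℝ) (φ ψ : Finset ι → ℝ) :
    Ex S q (fun E => φ E + ψ E) = Ex S q φ + Ex S q ψ := by
  unfold Ex
  rw [← Finset.sum_add_distrib]
  exact Finset.sum_congr rfl (fun E _ => by ring)

omit [DecidableEq ι] in
theorem Ex_smul (S : Finset ι) (q c : ℝ) (φ : Finset ι → ℝ) :
    Ex S q (fun E => c * φ E) = c * Ex S q φ := by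
  unfold Ex
  rw [Finset.mul_sum]
  exact Finset.sum_congr rfl (fun E _ => by ring)

omit [DecidableEq ι] in
theorem Ex_const (S : Finset ι) (q c : ℝ) : Ex S q (fun _ => c) = c := by
  unfold Ex
  rw [← Finset.sum_mul, Finset.sum_pow_mul_eq_add_pow]
  rw [add_sub_cancel, one_pow, one_mul]

omit [DecidableEq ι] in
theorem Ex_mono {S : Finset ι} {q : ℝ} (h0 : 0 ≤ q) (h1 : q ≤ 1) {φ ψ : Finset ι → ℝ}
    (h : ∀ E, E ⊆ S → φ E ≤ ψ E) : Ex S q φ ≤ Ex S q ψ := by
  unfold Ex
  apply Finset.sum_le_sum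
  intro E hE
  rw [Finset.mem_powerset] at hE
  apply mul_le_mul_of_nonneg_left (h E hE)
  have : 0 ≤ 1 - q := by linarith
  positivity

theorem Ex_comp (S : Finset ι) (q q' : ℝ) (φ : Finset ι → ℝ) :
    Ex S q (fun E₁ => Ex S q' (fun E₂ => φ (E₁ ∪ E₂))) = Ex S (q + q' - q * q') φ := by
  induction S using Finset.induction_on generalizing φ with
  | empty => simp [Ex]
  | insert a S ha ih =>
    rw [Ex_insert ha, Ex_insert ha]
    have e1 : (fun E₁ : Finset ι => Ex (insert a S) q' (fun E₂ => φ (E₁ ∪ E₂))) =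
        fun E₁ => (1 - q') * Ex S q' (fun E₂ => φ (E₁ ∪ E₂)) +
          q' * Ex S q' (fun E₂ => φ (insert a (E₁ ∪ E₂))) := by
      funext E₁
      rw [Ex_insert ha]
      simp only [Finset.union_insert]
    have e2 : (fun E₁ : Finset ι => Ex (insert a S) q' (fun E₂ => φ (insert a E₁ ∪ E₂))) =
        fun E₁ => (1 - q') * Ex S q' (fun E₂ => φ (insert a (E₁ ∪ E₂))) +
          q' * Ex S q' (fun E₂ => φ (insert a (E₁ ∪ E₂))) := by
      funext E₁
      rw [Ex_insert ha]
      simp only [Finset.union_insert, Finset.insert_union, Finset.insert_idem]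
    rw [e1, e2, Ex_add, Ex_add, Ex_smul, Ex_smul, Ex_smul, ih φ,
      ih (fun E => φ (insert a E))]
    ring

theorem Ex_disjoint {S B : Finset ι} (hB : B ⊆ S) (q : ℝ) :
    Ex S q (fun E => if Disjoint E B then 1 else 0) = (1 - q) ^ B.card := by
  unfold Ex
  simp only [mul_ite, mul_one, mul_zero]
  rw [← Finset.sum_filter]
  have hset : S.powerset.filter (fun E => Disjoint E B) = (S \ B).powerset := by
    ext E
    rw [Finset.mem_filter, Finset.mem_powerset, Finset.mem_powerset, Finset.subset_sdiff]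
  rw [hset]
  have hcard : S.card = B.card + (S \ B).card := by
    rw [Finset.card_sdiff_of_subset hB]
    have := Finset.card_le_card hB
    omega
  have : ∀ E ∈ (S \ B).powerset, q ^ E.card * (1 - q) ^ (S.card - E.card) =
      (1 - q) ^ B.card * (q ^ E.card * (1 - q) ^ ((S \ B).card - E.card)) := by
    intro E hE
    rw [Finset.mem_powerset] at hE
    have h1 := Finset.card_le_card hE
    have h2 : S.card - E.card = B.card + ((S \ B).card - E.card) := by omega
    rw [h2, pow_add]; ring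
  rw [Finset.sum_congr rfl this, ← Finset.mul_sum, Finset.sum_pow_mul_eq_add_pow]
  rw [add_sub_cancel, one_pow, mul_one]

/-- One round of exposure. -/
theorem Ex_step {S : Finset ι} {q : ℝ} (h0 : 0 ≤ q) (h1 : q ≤ 1) {φ : Finset ι → ℝ}
    (hanti : ∀ E E', E ⊆ E' → E' ⊆ S → φ E' ≤ φ E) {E₀ : Finset ι} (hE₀ : E₀ ⊆ S)
    (hpos : 0 ≤ φ E₀) {m : ℕ} {B : Finset ι} (hB : B ⊆ S) (hm : m ≤ B.card)
    (hboost : ∀ e ∈ B, φ (insert e E₀) ≤ φ E₀ / 2) :
    Ex S q (fun E => φ (E₀ ∪ E)) ≤ (1/2 + (1 - q) ^ m / 2) * φ E₀ := by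
  have hle : Ex S q (fun E => φ (E₀ ∪ E)) ≤
      Ex S q (fun E => φ E₀ / 2 + (φ E₀ / 2) * (if Disjoint E B then 1 else 0)) := by
    apply Ex_mono h0 h1
    intro E hE
    by_cases hd : Disjoint E B
    · rw [if_pos hd]
      have := hanti E₀ (E₀ ∪ E) Finset.subset_union_left (Finset.union_subset hE₀ hE)
      linarith
    · rw [if_neg hd]
      rw [Finset.not_disjoint_iff] at hd
      obtain ⟨e, heE, heB⟩ := hd
      have h2 := hanti (insert e E₀) (E₀ ∪ E) (by
        intro x hx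
        rw [Finset.mem_insert] at hx
        rw [Finset.mem_union]
        rcases hx with rfl | hx
        · exact Or.inr heE
        · exact Or.inl hx) (Finset.union_subset hE₀ hE)
      have := hboost e heB
      linarith
  rw [Ex_add, Ex_const, Ex_smul, Ex_disjoint hB] at hle
  have hpow : (1 - q) ^ B.card ≤ (1 - q) ^ m :=
    pow_le_pow_of_le_one (by linarith) (by linarith) hm
  nlinarith

/-- `N` rounds of exposure. -/
theorem Ex_iter {S : Finset ι} {q : ℝ} (h0 : 0 ≤ q) (h1 : q ≤ 1) {φ : Finset ι → ℝ}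
    (hanti : ∀ E E', E ⊆ E' → E' ⊆ S → φ E' ≤ φ E)
    (hpos : ∀ E, E ⊆ S → 0 ≤ φ E) {m : ℕ}
    (hboost : ∀ E₀, E₀ ⊆ S → φ E₀ ≠ 0 → ∃ B, B ⊆ S ∧ m ≤ B.card ∧
      ∀ e ∈ B, φ (insert e E₀) ≤ φ E₀ / 2) (N : ℕ) :
    ∀ E₀, E₀ ⊆ S → Ex S (1 - (1 - q) ^ N) (fun E => φ (E₀ ∪ E)) ≤
      (1/2 + (1 - q) ^ m / 2) ^ N * φ E₀ := by
  have hρ : 0 ≤ 1/2 + (1 - q) ^ m / 2 := by
    have : 0 ≤ (1 - q) ^ m := pow_nonneg (by linarith) _
    linarith
  have hone : ∀ E₀, E₀ ⊆ S → Ex S q (fun E => φ (E₀ ∪ E)) ≤ (1/2 + (1 - q) ^ m / 2) * φ E₀ := by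
    intro E₀ hE₀
    by_cases hz : φ E₀ = 0
    · rw [hz, mul_zero]
      have : Ex S q (fun E => φ (E₀ ∪ E)) ≤ Ex S q (fun _ => 0) := by
        apply Ex_mono h0 h1
        intro E hE
        rw [← hz]
        exact hanti _ _ Finset.subset_union_left (Finset.union_subset hE₀ hE)
      rwa [Ex_const] at this
    · obtain ⟨B, hB, hm, hb⟩ := hboost E₀ hE₀ hz
      exact Ex_step h0 h1 hanti hE₀ (hpos _ hE₀) hB hm hb
  induction N with
  | zero =>
    intro E₀ hE₀
    simp only [pow_zero, sub_self, one_mul]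
    have h2 : Ex S 0 (fun E => φ (E₀ ∪ E)) ≤ Ex S 0 (fun _ => φ E₀) := by
      apply Ex_mono le_rfl zero_le_one
      intro E hE
      exact hanti _ _ Finset.subset_union_left (Finset.union_subset hE₀ hE)
    rwa [Ex_const] at h2
  | succ N ih =>
    intro E₀ hE₀
    have hq : 1 - (1 - q) ^ (N + 1) = q + (1 - (1 - q) ^ N) - q * (1 - (1 - q) ^ N) := by
      rw [pow_succ]; ring
    rw [hq, ← Ex_comp]
    have h2 : Ex S q (fun E₁ => Ex S (1 - (1 - q) ^ N) (fun E₂ => φ (E₀ ∪ (E₁ ∪ E₂)))) ≤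
        Ex S q (fun E₁ => (1/2 + (1 - q) ^ m / 2) ^ N * φ (E₀ ∪ E₁)) := by
      apply Ex_mono h0 h1
      intro E₁ hE₁
      have := ih (E₀ ∪ E₁) (Finset.union_subset hE₀ hE₁)
      simp only [Finset.union_assoc] at this
      exact this
    rw [Ex_smul] at h2
    refine h2.trans ?_
    calc (1/2 + (1 - q) ^ m / 2) ^ N * Ex S q (fun E => φ (E₀ ∪ E))
        ≤ (1/2 + (1 - q) ^ m / 2) ^ N * ((1/2 + (1 - q) ^ m / 2) * φ E₀) :=
          mul_le_mul_of_nonneg_left (hone E₀ hE₀) (pow_nonneg hρ _)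
      _ = (1/2 + (1 - q) ^ m / 2) ^ (N + 1) * φ E₀ := by rw [pow_succ]; ring

/-- For `p m ≥ N` the random set of density `p` decreases the potential by `(3/4) ^ N`. -/
theorem Ex_le_of_boosters {S : Finset ι} {p : ℝ} (h0 : 0 ≤ p) (h1 : p ≤ 1) {φ : Finset ι → ℝ}
    (hanti : ∀ E E', E ⊆ E' → E' ⊆ S → φ E' ≤ φ E)
    (hpos : ∀ E, E ⊆ S → 0 ≤ φ E) {m : ℕ}
    (hboost : ∀ E₀, E₀ ⊆ S → φ E₀ ≠ 0 → ∃ B, B ⊆ S ∧ m ≤ B.card ∧
      ∀ e ∈ B, φ (insert e E₀) ≤ φ E₀ / 2) (N : ℕ) (hN : (N : ℝ) ≤ p * m) :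
    Ex S p φ ≤ (3/4) ^ N * φ ∅ := by
  rcases Nat.eq_zero_or_pos N with rfl | hNpos
  · simp only [pow_zero, one_mul]
    have h2 : Ex S p φ ≤ Ex S p (fun _ => φ ∅) := by
      apply Ex_mono h0 h1
      intro E hE
      exact hanti _ _ (Finset.empty_subset _) hE
    rwa [Ex_const] at h2
  · -- `y = (1-p)^(1/N)`
    have hNr : (0 : ℝ) < N := by exact_mod_cast hNpos
    obtain ⟨y, hy0, hyN⟩ : ∃ y : ℝ, 0 ≤ y ∧ y ^ N = 1 - p := by
      refine ⟨(1 - p) ^ ((N : ℝ)⁻¹), Real.rpow_nonneg (by linarith) _, ?_⟩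
      exact Real.rpow_inv_natCast_pow (by linarith) (by omega)
    have hpN : p / N ≤ 1 := by
      rw [div_le_one hNr]
      have : (1 : ℝ) ≤ N := by exact_mod_cast hNpos
      linarith
    have hy1 : y ≤ 1 - p / N := by
      have hb : 1 - p ≤ (1 - p / N) ^ N := by
        have := one_add_mul_le_pow (a := -(p / N)) (by linarith) N
        have e : 1 + (N : ℝ) * (-(p / N)) = 1 - p := by field_simp; ring
        rw [e] at this
        have e2 : 1 + -(p / N) = 1 - p / N := by ring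
        rwa [e2] at this
      rw [← hyN] at hb
      exact le_of_pow_le_pow_left₀ (by omega) (by linarith) hb
    have hym : y ^ m ≤ 1/2 := by
      calc y ^ m ≤ (1 - p / N) ^ m := pow_le_pow_left₀ hy0 hy1 m
        _ ≤ (Real.exp (-(p/N))) ^ m := by
            apply pow_le_pow_left₀ (by linarith)
            have := Real.add_one_le_exp (-(p/N))
            linarith
        _ = Real.exp (-(p * m / N)) := by
            rw [← Real.exp_nat_mul]; congr 1; ring
        _ ≤ Real.exp (-1) := by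
            apply Real.exp_le_exp.mpr
            have : 1 ≤ p * m / N := by rw [le_div_iff₀ hNr]; linarith
            linarith
        _ ≤ 1/2 := by
            have h3 : (2 : ℝ) ≤ Real.exp 1 := by
              have := Real.add_one_le_exp (1 : ℝ); linarith
            rw [Real.exp_neg]
            rw [inv_le_comm₀ (Real.exp_pos _) (by norm_num)]
            norm_num
            exact h3
    have hy1' : y ≤ 1 := by
      have : 0 ≤ p / N := by positivity
      linarith
    have key := Ex_iter (S := S) (q := 1 - y) (by linarith) (by linarith) hanti hpos hboost N ∅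
      (Finset.empty_subset _)
    simp only [Finset.empty_union] at key
    have e1 : 1 - (1 - (1 - y)) ^ N = p := by
      have : 1 - (1 - y) = y := by ring
      rw [this, hyN]; ring
    have e2 : 1 - (1 - y) = y := by ring
    rw [e1, e2] at key
    refine key.trans ?_
    apply mul_le_mul_of_nonneg_right _ (hpos ∅ (Finset.empty_subset _))
    apply pow_le_pow_left₀
    · have : 0 ≤ y ^ m := pow_nonneg hy0 _
      linarith
    · linarith

end Pool.Agent.H99.Dig
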