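import Pool.Agent.H99.Dig.Basic

/-!
# Transfer of Hamilton cycles and boosters along bijections and reversal
-/

namespace Pool.Agent.H99.Dig

open Finset

variable {α β : Type*}

theorem HC.map {S : Finset α} {T : Finset β} {r : α → α → Prop} {s : β → β → Prop}
    (f : α → β) (hf : ∀ a ∈ S, ∀ b ∈ S, f a = f b → a = b)
    (hST : ∀ v, v ∈ T ↔ ∃ a ∈ S, f a = v)
    (hrs : ∀ a ∈ S, ∀ b ∈ S, r a b → s (f a) (f b)) (h : HC S r) : HC T s := by
  obtain ⟨l, x, y, ⟨h1, h2, h3, h4, h5⟩, h6⟩ := h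
  have hx : x ∈ S := by
    rw [← h2]; exact List.mem_of_mem_head? (by rw [h4]; rfl)
  have hy : y ∈ S := by
    rw [← h2]; exact List.mem_of_getLast? h5
  refine ⟨l.map f, f x, f y, ⟨?_, ?_, ?_, ?_, ?_⟩, hrs _ hy _ hx h6⟩
  · apply List.Nodup.map_on _ h1
    intro a ha b hb hab
    exact hf a ((h2 a).mp ha) b ((h2 b).mp hb) hab
  · intro v
    rw [List.mem_map, hST]
    constructor
    · rintro ⟨a, ha, rfl⟩; exact ⟨a, (h2 a).mp ha, rfl⟩
    · rintro ⟨a, ha, rfl⟩; exact ⟨a, (h2 a).mpr ha, rfl⟩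
  · rw [List.isChain_map]
    apply List.IsChain.imp_of_mem_imp _ h3
    intro a b ha hb hab
    exact hrs a ((h2 a).mp ha) b ((h2 b).mp hb) hab
  · rw [List.head?_map, h4]; rfl
  · rw [List.getLast?_map, h5]; rfl

theorem HC.flip {S : Finset α} {r : α → α → Prop} (h : HC S r) : HC S (fun a b => r b a) := by
  obtain ⟨l, x, y, ⟨h1, h2, h3, h4, h5⟩, h6⟩ := h
  refine ⟨l.reverse, y, x, ⟨List.nodup_reverse.mpr h1, ?_, ?_, ?_, ?_⟩, h6⟩
  · intro v; rw [List.mem_reverse, h2]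
  · rw [List.isChain_reverse]; exact h3
  · rw [List.head?_reverse]; exact h5
  · rw [List.getLast?_reverse]; exact h4

theorem card_boost_le_of_map {S : Finset α} {T : Finset β} {r : α → α → Prop} {s : β → β → Prop}
    (f : α → β) (hf : ∀ a ∈ S, ∀ b ∈ S, f a = f b → a = b)
    (hST : ∀ v, v ∈ T ↔ ∃ a ∈ S, f a = v)
    (hrs : ∀ a ∈ S, ∀ b ∈ S, r a b → s (f a) (f b)) :
    (boost S r).card ≤ (boost T s).card := by
  apply Finset.card_le_card_of_injOn (fun e => (f e.1, f e.2))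
  · intro e he
    rw [Finset.mem_coe, mem_boost] at he ⊢
    obtain ⟨h1, h2, h3, h4⟩ := he
    refine ⟨?_, ?_, ?_, ?_⟩
    · rw [hST]; exact ⟨_, h1, rfl⟩
    · rw [hST]; exact ⟨_, h2, rfl⟩
    · intro hEq; exact h3 (hf _ h1 _ h2 hEq)
    · apply HC.map f hf hST _ h4
      intro a ha b hb hab
      rcases hab with hab | ⟨rfl, rfl⟩
      · exact Or.inl (hrs a ha b hb hab)
      · exact Or.inr ⟨rfl, rfl⟩
  · intro e he e' he' hEq
    rw [Finset.mem_coe, mem_boost] at he he'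
    simp only [Prod.mk.injEq] at hEq
    ext
    · exact hf _ he.1 _ he'.1 hEq.1
    · exact hf _ he.2.1 _ he'.2.1 hEq.2

theorem card_boost_le_flip {S : Finset α} {r : α → α → Prop} :
    (boost S r).card ≤ (boost S (fun a b => r b a)).card := by
  apply Finset.card_le_card_of_injOn (fun e => (e.2, e.1))
  · intro e he
    rw [Finset.mem_coe, mem_boost] at he ⊢
    obtain ⟨h1, h2, h3, h4⟩ := he
    refine ⟨h2, h1, fun h => h3 h.symm, ?_⟩
    apply HC.mono (HC.flip h4)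
    intro a b hab
    rcases hab with hab | ⟨h, h'⟩
    · exact Or.inl hab
    · exact Or.inr ⟨h', h⟩
  · intro e he e' he' hEq
    simp only [Prod.mk.injEq] at hEq
    ext
    · exact hEq.2
    · exact hEq.1

end Pool.Agent.H99.Dig
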